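import Mathlib
import Pool.Graph.R_pool_sql_team_seeded_63374d34.Results.MP_2ec8a3_nt.RadicalOrder
import Pool.Graph.R_pool_sql_team_seeded_707910d6.Results.MP_2ec8a3_nt.SquareRootAllHeights

/-!
# Oesterlé's weak form of the abc conjecture: the number of violators of all heights

The abc triples `(a, b, c)` with `rad (abc) ≤ X` which violate `c < rad (abc) ^ M` are counted, with
no condition whatever on the size of `c`. For `1/3 < M < 3/7` their number `V(X)` satisfies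

  `log V(X) = (1 - M) log X + (√(24 (3 M - 1)) + o(1)) √(log X / log log X)`.

The triples with `c ≤ X ^ A` are those of the starting library (`RadicalOrder`); the square root
bound at all heights (`SquareRootAllHeights`) shows that for a large `A` the number of the other
ones is at most `C X ^ (1/3 + ε)`, which is negligible.
-/

set_option autoImplicit false

namespace Pool.Agent.Results.MP_2ec8a3_nt.AllHeightsSecondOrder

open Filter Topology

/-- the product of the primes dividing `n` -/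
def rad (n : ℕ) : ℕ := ∏ p ∈ n.primeFactors, p

/-- the triples `(a, b, c)` of positive integers with `gcd(a, b) = 1`, `a + b = c`, `rad(abc) ≤ X` and
`rad(abc) ^ M ≤ c`, that is the triples of radical at most `X` which violate Oesterlé's inequality
with the exponent `M`; there is no other condition on the size of `c` -/
def Violators (M X : ℝ) : Set (ℕ × ℕ × ℕ) :=
  {t | 0 < t.1 ∧ 0 < t.2.1 ∧ Nat.Coprime t.1 t.2.1 ∧ t.1 + t.2.1 = t.2.2 ∧
    (rad (t.1 * t.2.1 * t.2.2) : ℝ) ≤ X ∧ (rad (t.1 * t.2.1 * t.2.2) : ℝ) ^ M ≤ (t.2.2 : ℝ)}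

/-- those with `c ≤ Z` -/
def UpTo (M X Z : ℝ) : Set (ℕ × ℕ × ℕ) := {t | t ∈ Violators M X ∧ (t.2.2 : ℝ) ≤ Z}

lemma rad_pos (n : ℕ) : 0 < rad n :=
  Finset.prod_pos fun _ hp => (Nat.prime_of_mem_primeFactors hp).pos

lemma one_le_rad (n : ℕ) : (1 : ℝ) ≤ rad n := by exact_mod_cast rad_pos n

/-- the violators of large height -/
lemma large (ε : ℝ) (hε : 0 < ε) : ∃ M₁ C : ℝ, 1 ≤ M₁ ∧ 0 < C ∧ ∀ M X : ℝ, 1 ≤ X →
    ({t | t ∈ Violators M X ∧ X ^ M₁ < (t.2.2 : ℝ)} : Set (ℕ × ℕ × ℕ)).Finite ∧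
    (({t | t ∈ Violators M X ∧ X ^ M₁ < (t.2.2 : ℝ)} : Set (ℕ × ℕ × ℕ)).ncard : ℝ) ≤
      C * X ^ (1 / 3 + ε) := by
  obtain ⟨m, C, hC, h⟩ := SquareRootAllHeights.result ε hε
  refine ⟨max 1 m, C, le_max_left _ _, hC, fun M X hX => ?_⟩
  have hX0 : 0 < X := by linarith
  have hX1 : 1 ≤ ⌊X⌋₊ := Nat.le_floor (by simpa using hX)
  obtain ⟨hfin, hcard, -⟩ := h ⌊X⌋₊ hX1
  set S : Set (ℕ × ℕ × ℕ) := {t | t ∈ Violators M X ∧ X ^ (max 1 (m : ℝ)) < (t.2.2 : ℝ)} with hS
  have hmap : ∀ t ∈ S, (t.1, t.2.1) ∈ SquareRootAllHeights.exceptions m ⌊X⌋₊ := by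
    rintro ⟨a, b, c⟩ ⟨⟨h1, h2, h3, h4, h5, h6⟩, h7⟩
    simp only at h1 h2 h3 h4 h5 h6 h7 ⊢
    subst h4
    refine ⟨⟨h1, h2, h3⟩, Nat.le_floor h5, ?_⟩
    have e : (SquareRootAllHeights.rad3 (a, b)) = rad (a * b * (a + b)) := rfl
    rw [e]
    have h8 : ((rad (a * b * (a + b)) : ℕ) : ℝ) ^ (m : ℝ) ≤ ((a + b : ℕ) : ℝ) := by
      calc ((rad (a * b * (a + b)) : ℕ) : ℝ) ^ (m : ℝ) ≤ X ^ (m : ℝ) :=
            Real.rpow_le_rpow (Nat.cast_nonneg _) h5 (Nat.cast_nonneg _)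
        _ ≤ X ^ (max 1 (m : ℝ)) := Real.rpow_le_rpow_of_exponent_le hX (le_max_right _ _)
        _ ≤ _ := h7.le
    rw [Real.rpow_natCast] at h8
    exact_mod_cast h8
  have hinj : Set.InjOn (fun t : ℕ × ℕ × ℕ => (t.1, t.2.1)) S := by
    rintro ⟨a, b, c⟩ ht ⟨a', b', c'⟩ ht' hh
    have e1 : a + b = c := ht.1.2.2.2.1
    have e2 : a' + b' = c' := ht'.1.2.2.2.1
    simp only [Prod.mk.injEq] at hh
    obtain ⟨rfl, rfl⟩ := hh
    rw [← e1, ← e2]
  have hSfin : S.Finite := by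
    refine Set.Finite.of_finite_image ?_ hinj
    refine hfin.subset ?_
    rintro _ ⟨t, ht, rfl⟩
    exact hmap t ht
  refine ⟨hSfin, ?_⟩
  have h1 : S.ncard ≤ (SquareRootAllHeights.exceptions m ⌊X⌋₊).ncard :=
    Set.ncard_le_ncard_of_injOn (fun t : ℕ × ℕ × ℕ => (t.1, t.2.1)) hmap hinj hfin
  calc (S.ncard : ℝ) ≤ ((SquareRootAllHeights.exceptions m ⌊X⌋₊).ncard : ℝ) := by exact_mod_cast h1
    _ ≤ C * ((⌊X⌋₊ : ℕ) : ℝ) ^ (1 / 3 + ε) := hcard
    _ ≤ C * X ^ (1 / 3 + ε) := by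
        refine mul_le_mul_of_nonneg_left ?_ hC.le
        exact Real.rpow_le_rpow (Nat.cast_nonneg _) (Nat.floor_le hX0.le) (by linarith)

lemma upTo_finite (M X Z : ℝ) : (UpTo M X Z).Finite := by
  refine Set.Finite.subset (Finset.finite_toSet (Finset.range (⌊Z⌋₊ + 1) ×ˢ
    (Finset.range (⌊Z⌋₊ + 1) ×ˢ Finset.range (⌊Z⌋₊ + 1)))) ?_
  rintro ⟨a, b, c⟩ ⟨⟨h1, h2, h3, h4, h5, h6⟩, h7⟩
  simp only at h1 h2 h3 h4 h5 h6 h7
  have hc : c ≤ ⌊Z⌋₊ := Nat.le_floor h7
  rw [Finset.mem_coe, Finset.mem_product, Finset.mem_product, Finset.mem_range, Finset.mem_range,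
    Finset.mem_range]
  simp only
  omega

lemma violators_finite (M X : ℝ) : (Violators M X).Finite := by
  obtain ⟨M₁, C, hM₁, hC, h⟩ := large 1 one_pos
  rcases lt_or_ge X 1 with hX | hX
  · refine Set.Finite.subset Set.finite_empty ?_
    rintro ⟨a, b, c⟩ ⟨h1, h2, h3, h4, h5, h6⟩
    have := one_le_rad (a * b * c)
    simp only at h5
    linarith
  · refine Set.Finite.subset ((h M X hX).1.union (upTo_finite M X (X ^ M₁))) ?_
    intro t ht
    rcases lt_or_ge (X ^ M₁) (t.2.2 : ℝ) with h1 | h1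
    · exact Or.inl ⟨ht, h1⟩
    · exact Or.inr ⟨ht, h1⟩

/-- the two counts -/
lemma compare (ε : ℝ) (hε : 0 < ε) : ∃ M₁ C : ℝ, 1 ≤ M₁ ∧ 0 < C ∧ ∀ M X : ℝ, 1 ≤ X →
    ((Violators M X).ncard : ℝ) ≤ ((UpTo M X (X ^ M₁)).ncard : ℝ) + C * X ^ (1 / 3 + ε) ∧
    ((UpTo M X (X ^ M₁)).ncard : ℝ) ≤ ((Violators M X).ncard : ℝ) := by
  obtain ⟨M₁, C, hM₁, hC, h⟩ := large ε hε
  refine ⟨M₁, C, hM₁, hC, fun M X hX => ⟨?_, ?_⟩⟩
  · obtain ⟨h1, h2⟩ := h M X hX
    have hsub : Violators M X ⊆ UpTo M X (X ^ M₁) ∪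
        {t | t ∈ Violators M X ∧ X ^ M₁ < (t.2.2 : ℝ)} := by
      intro t ht
      rcases lt_or_ge (X ^ M₁) (t.2.2 : ℝ) with h1 | h1
      · exact Or.inr ⟨ht, h1⟩
      · exact Or.inl ⟨ht, h1⟩
    have h3 := Set.ncard_le_ncard hsub ((upTo_finite M X (X ^ M₁)).union h1)
    have h4 := Set.ncard_union_le (UpTo M X (X ^ M₁))
      {t | t ∈ Violators M X ∧ X ^ M₁ < (t.2.2 : ℝ)}
    have h5 : ((Violators M X).ncard : ℝ) ≤ ((UpTo M X (X ^ M₁)).ncard : ℝ) +
        (({t | t ∈ Violators M X ∧ X ^ M₁ < (t.2.2 : ℝ)} : Set (ℕ × ℕ × ℕ)).ncard : ℝ) := by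
      exact_mod_cast h3.trans h4
    linarith
  · have := Set.ncard_le_ncard (s := UpTo M X (X ^ M₁)) (t := Violators M X) (fun t ht => ht.1)
      (violators_finite M X)
    exact_mod_cast this

/-- the second order law at all heights -/
lemma second_order {M : ℝ} (h1 : 1 / 3 < M) (h2 : M < 3 / 7) :
    Tendsto (fun X : ℝ => (Real.log ((Violators M X).ncard : ℝ) - (1 - M) * Real.log X) /
      √(Real.log X / Real.log (Real.log X))) atTop (𝓝 √(24 * (3 * M - 1))) := by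
  obtain ⟨M₁, C, hM₁, hC, hcmp⟩ := compare (1 / 6) (by norm_num)
  obtain ⟨-, hlim⟩ := RadicalOrder.result.1 M M₁ h1 h2 hM₁
  have hsame : ∀ X, RadicalOrder.ViolatorsUpTo M X (X ^ M₁) = UpTo M X (X ^ M₁) := fun X => rfl
  simp only [hsame] at hlim
  -- the difference
  have hL : 0 < √(24 * (3 * M - 1)) := Real.sqrt_pos.2 (by linarith)
  have hpos := hlim.eventually (eventually_gt_nhds hL)
  have hD : Tendsto (fun X : ℝ => (Real.log ((Violators M X).ncard : ℝ) - (1 - M) * Real.log X) /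
      √(Real.log X / Real.log (Real.log X)) -
      (Real.log ((UpTo M X (X ^ M₁)).ncard : ℝ) - (1 - M) * Real.log X) /
      √(Real.log X / Real.log (Real.log X))) atTop (𝓝 0) := by
    have hz : Tendsto (fun X : ℝ => C * X ^ (-(1 / 14) : ℝ)) atTop (𝓝 (C * 0)) :=
      (tendsto_rpow_neg_atTop (by norm_num)).const_mul C
    rw [mul_zero] at hz
    refine squeeze_zero_norm' ?_ hz
    have hll : ∀ᶠ X : ℝ in atTop, 1 ≤ Real.log X / Real.log (Real.log X) := by
      have h3 : Tendsto (fun X : ℝ => Real.log X) atTop atTop := Real.tendsto_log_atTop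
      filter_upwards [h3.eventually (eventually_gt_atTop (Real.exp 1))] with X hX
      have hx0 : 0 < Real.log X := lt_trans (Real.exp_pos 1) hX
      have h4 : 1 < Real.log (Real.log X) := by
        rw [Real.lt_log_iff_exp_lt hx0]
        exact hX
      rw [le_div_iff₀ (by linarith), one_mul]
      have := Real.log_le_sub_one_of_pos hx0
      linarith
    filter_upwards [hpos, hll, eventually_gt_atTop 1] with X hX1 hX2 hX3
    have hX0 : 0 < X := by linarith
    have hlX : 0 < Real.log X := Real.log_pos hX3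
    have hs : 1 ≤ √(Real.log X / Real.log (Real.log X)) := Real.one_le_sqrt.2 hX2
    have hs0 : 0 < √(Real.log X / Real.log (Real.log X)) := by linarith
    obtain ⟨c1, c2⟩ := hcmp M X hX3.le
    -- the lower bound
    have h5 : (1 - M) * Real.log X < Real.log ((UpTo M X (X ^ M₁)).ncard : ℝ) := by
      have := (div_pos_iff_of_pos_right hs0).1 hX1
      linarith
    have h6 : 0 < Real.log ((UpTo M X (X ^ M₁)).ncard : ℝ) :=
      lt_trans (mul_pos (by linarith) hlX) h5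
    have h7 : 0 < ((UpTo M X (X ^ M₁)).ncard : ℝ) := by
      rcases Nat.eq_zero_or_pos ((UpTo M X (X ^ M₁)).ncard) with h | h
      · rw [h] at h6
        simp at h6
      · exact_mod_cast h
    have h8 : X ^ (1 - M) ≤ ((UpTo M X (X ^ M₁)).ncard : ℝ) := by
      rw [← Real.log_le_log_iff (by positivity) h7, Real.log_rpow hX0]
      exact h5.le
    have h8' : X ^ (4 / 7 : ℝ) ≤ ((UpTo M X (X ^ M₁)).ncard : ℝ) :=
      (Real.rpow_le_rpow_of_exponent_le hX3.le (by linarith)).trans h8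
    rw [← sub_div, Real.norm_eq_abs, abs_div, abs_of_pos hs0]
    have h9 : Real.log ((Violators M X).ncard : ℝ) - (1 - M) * Real.log X -
        (Real.log ((UpTo M X (X ^ M₁)).ncard : ℝ) - (1 - M) * Real.log X) =
        Real.log ((Violators M X).ncard : ℝ) - Real.log ((UpTo M X (X ^ M₁)).ncard : ℝ) := by ring
    rw [h9]
    obtain ⟨u, hu⟩ : ∃ u : ℝ, u = ((UpTo M X (X ^ M₁)).ncard : ℝ) := ⟨_, rfl⟩
    obtain ⟨v, hv⟩ : ∃ v : ℝ, v = ((Violators M X).ncard : ℝ) := ⟨_, rfl⟩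
    rw [← hu] at c1 c2 h7 h8' ⊢
    rw [← hv] at c1 c2 ⊢
    have hv0 : 0 < v := by linarith
    have h10 : 0 ≤ Real.log v - Real.log u := by
      have := Real.log_le_log h7 c2
      linarith
    rw [abs_of_nonneg h10]
    refine (div_le_self h10 hs).trans ?_
    rw [← Real.log_div hv0.ne' h7.ne']
    refine (Real.log_le_sub_one_of_pos (by positivity)).trans ?_
    have h11 : v / u - 1 ≤ C * X ^ (1 / 3 + 1 / 6 : ℝ) / u := by
      rw [div_sub_one h7.ne']
      exact div_le_div_of_nonneg_right (by linarith) h7.le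
    refine h11.trans ?_
    rw [div_le_iff₀ h7]
    calc C * X ^ (1 / 3 + 1 / 6 : ℝ) = C * X ^ (-(1 / 14) : ℝ) * X ^ (4 / 7 : ℝ) := by
          rw [mul_assoc, ← Real.rpow_add hX0]
          norm_num
      _ ≤ C * X ^ (-(1 / 14) : ℝ) * u := mul_le_mul_of_nonneg_left h8' (by positivity)
  have := hD.add hlim
  simpa using this

/-- **The number of violators of all heights.** Let `V(M, X)` be the number of the triples of
positive coprime integers `a + b = c` with `rad(abc) ≤ X` which violate `c < rad(abc) ^ M`; it is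
finite, and for `1/3 < M < 3/7` the quotient
`(log V(M, X) - (1 - M) log X) / √(log X / log log X)` tends to `√(24 (3 M - 1))`. -/
theorem result :
    (∀ M X : ℝ, (Violators M X).Finite) ∧
    (∀ M : ℝ, 1 / 3 < M → M < 3 / 7 →
      Tendsto (fun X : ℝ => (Real.log ((Violators M X).ncard : ℝ) - (1 - M) * Real.log X) /
        √(Real.log X / Real.log (Real.log X))) atTop (𝓝 √(24 * (3 * M - 1)))) :=
  ⟨violators_finite, fun _ h1 h2 => second_order h1 h2⟩

end Pool.Agent.Results.MP_2ec8a3_nt.AllHeightsSecondOrder
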