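import Mathlib
import Pool.Graph.R_seed8.H785R2.ABC.A12
import Pool.Graph.R_pool_sql_team_seeded_707910d6.Results.MP_2ec8a3_nt.SquareRootAllHeights

/-!
# Oesterlé's inequality for all the abc triples composed of the primes of a random integer

Let `f` be a non-zero polynomial with integral coefficients of degree at most `2`, for instance
`f(x) = x`. For all `n ≤ N` with at most `K N exp (- κ (log M) ^ (1/6))` exceptions, EVERY abc triple
all of whose primes divide `f(n)` satisfies `c < rad (abc) ^ M`.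

The abc triples which violate `c < rad (abc) ^ M₀` are so rare (`SquareRootAllHeights`) that the sum
of `rad (abc) ^ (- 5/12)` over all of them converges, and those which violate it with a large
exponent `M` have a large radical by a bound for their heights.
-/

set_option autoImplicit false

namespace Pool.Agent.Results.MP_2ec8a3_nt.PrimesOfRandomValues

open Finset

/-- the product of the primes dividing `n` -/
def rad (n : ℕ) : ℕ := ∏ p ∈ n.primeFactors, p

/-- the `n` with `f(n) ≠ 0` for which some triple of positive coprime integers `a + b = c` all of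
whose primes divide `f(n)` violates the inequality `c < rad (abc) ^ M` -/
def Bad (f : Polynomial ℤ) (M : ℝ) : Set ℕ :=
  {n | f.eval (n : ℤ) ≠ 0 ∧ ∃ a b c : ℕ, 0 < a ∧ 0 < b ∧ Nat.Coprime a b ∧ a + b = c ∧
    (∀ p : ℕ, p.Prime → p ∣ a * b * c → (p : ℤ) ∣ f.eval (n : ℤ)) ∧
    (rad (a * b * c) : ℝ) ^ M ≤ (c : ℝ)}

lemma rad_pos (n : ℕ) : 0 < rad n :=
  Finset.prod_pos fun _ hp => (Nat.prime_of_mem_primeFactors hp).pos

lemma one_le_rad (n : ℕ) : (1 : ℝ) ≤ rad n := by exact_mod_cast rad_pos n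

/-- a convergent sum -/
lemma sum_bound {ι : Type*} (r : ι → ℕ) (hr : ∀ i, 1 ≤ r i) (C α β : ℝ) (hC : 0 ≤ C) (hα : 0 ≤ α)
    (hαβ : α < β) (F : Finset ι)
    (h : ∀ X : ℕ, 1 ≤ X → ((F.filter fun i => r i ≤ X).card : ℝ) ≤ C * (X : ℝ) ^ α) :
    ∑ i ∈ F, (r i : ℝ) ^ (-β) ≤ C * 2 ^ α * (1 - 2 ^ (α - β))⁻¹ := by
  classical
  obtain ⟨J, hJ⟩ : ∃ J : ℕ, ∀ i ∈ F, Nat.log 2 (r i) < J := by
    refine ⟨F.sup (fun i => Nat.log 2 (r i)) + 1, fun i hi => ?_⟩
    have := Finset.le_sup (f := fun i => Nat.log 2 (r i)) hi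
    omega
  have hq : (2 : ℝ) ^ (α - β) < 1 := Real.rpow_lt_one_of_one_lt_of_neg (by norm_num) (by linarith)
  have hq0 : (0 : ℝ) < 2 ^ (α - β) := by positivity
  rw [← Finset.sum_fiberwise_of_maps_to (s := F) (t := range J) (g := fun i => Nat.log 2 (r i))
    (fun i hi => mem_range.2 (hJ i hi))]
  have h1 : ∀ j ∈ range J, ∑ i ∈ F.filter (fun i => Nat.log 2 (r i) = j), (r i : ℝ) ^ (-β) ≤
      C * 2 ^ α * (2 ^ (α - β)) ^ j := by
    intro j _
    have h2 : ∀ i ∈ F.filter (fun i => Nat.log 2 (r i) = j), (r i : ℝ) ^ (-β) ≤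
        ((2 : ℝ) ^ j) ^ (-β) := by
      intro i hi
      have h3 := (mem_filter.1 hi).2
      have h4 : 2 ^ j ≤ r i := by
        rw [← h3]
        exact Nat.pow_log_le_self 2 (by have := hr i; omega)
      have h5 : (2 : ℝ) ^ j ≤ r i := by exact_mod_cast h4
      exact Real.rpow_le_rpow_of_nonpos (by positivity) h5 (by linarith)
    have h6 : ((F.filter fun i => Nat.log 2 (r i) = j).card : ℝ) ≤ C * ((2 ^ (j + 1) : ℕ) : ℝ) ^ α := by
      refine le_trans ?_ (h (2 ^ (j + 1)) Nat.one_le_two_pow)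
      have : (F.filter fun i => Nat.log 2 (r i) = j).card ≤
          (F.filter fun i => r i ≤ 2 ^ (j + 1)).card := by
        refine card_le_card fun i hi => ?_
        obtain ⟨a1, a2⟩ := mem_filter.1 hi
        refine mem_filter.2 ⟨a1, ?_⟩
        rw [← a2]
        exact (Nat.lt_pow_succ_log_self (by norm_num) _).le
      exact_mod_cast this
    calc ∑ i ∈ F.filter (fun i => Nat.log 2 (r i) = j), (r i : ℝ) ^ (-β)
        ≤ (F.filter (fun i => Nat.log 2 (r i) = j)).card • ((2 : ℝ) ^ j) ^ (-β) :=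
          sum_le_card_nsmul _ _ _ h2
      _ = ((F.filter fun i => Nat.log 2 (r i) = j).card : ℝ) * ((2 : ℝ) ^ j) ^ (-β) := by
          rw [nsmul_eq_mul]
      _ ≤ C * ((2 ^ (j + 1) : ℕ) : ℝ) ^ α * ((2 : ℝ) ^ j) ^ (-β) :=
          mul_le_mul_of_nonneg_right h6 (by positivity)
      _ = C * 2 ^ α * (2 ^ (α - β)) ^ j := by
          push_cast
          rw [pow_succ, Real.mul_rpow (by positivity) (by norm_num), ← Real.rpow_natCast 2 j,
            ← Real.rpow_mul (by norm_num), ← Real.rpow_mul (by norm_num),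
            ← Real.rpow_natCast (2 ^ (α - β)) j, ← Real.rpow_mul (by norm_num)]
          have e : (2 : ℝ) ^ ((α - β) * (j : ℝ)) = 2 ^ ((j : ℝ) * α) * 2 ^ ((j : ℝ) * -β) := by
            rw [← Real.rpow_add (by norm_num)]
            congr 1
            ring
          rw [e]
          ring
  refine (sum_le_sum h1).trans ?_
  rw [← mul_sum]
  refine mul_le_mul_of_nonneg_left ?_ (by positivity)
  rw [← one_div, le_div_iff₀ (by linarith), geom_sum_mul_neg]
  have : (0 : ℝ) ≤ (2 ^ (α - β)) ^ J := by positivity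
  linarith

/-- the residues modulo a prime which are roots -/
lemma roots_card (f : Polynomial ℤ) (hd : f.natDegree ≤ 2) (k : ℕ) (p : ℕ) (hp : p.Prime)
    (hk : ¬ (p : ℤ) ∣ f.coeff k) :
    ((range p).filter fun r : ℕ => (p : ℤ) ∣ f.eval (r : ℤ)).card ≤ 2 := by
  classical
  have : Fact p.Prime := ⟨hp⟩
  have h0 : f.map (Int.castRingHom (ZMod p)) ≠ 0 := by
    intro h
    have h1 : (f.map (Int.castRingHom (ZMod p))).coeff k = 0 := by rw [h, Polynomial.coeff_zero]
    rw [Polynomial.coeff_map] at h1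
    exact hk ((ZMod.intCast_zmod_eq_zero_iff_dvd _ _).1 h1)
  have h1 : ((range p).filter fun r : ℕ => (p : ℤ) ∣ f.eval (r : ℤ)).card ≤
      (f.map (Int.castRingHom (ZMod p))).roots.toFinset.card := by
    refine card_le_card_of_injOn (fun r : ℕ => (r : ZMod p)) ?_ ?_
    · intro r hr
      rw [mem_coe, mem_filter] at hr
      rw [mem_coe, Multiset.mem_toFinset, Polynomial.mem_roots h0, Polynomial.IsRoot.def]
      have h2 : ((f.eval (r : ℤ) : ℤ) : ZMod p) = 0 := (ZMod.intCast_zmod_eq_zero_iff_dvd _ _).2 hr.2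
      rw [← h2, ← eq_intCast (Int.castRingHom (ZMod p)), ← Polynomial.eval_map_apply]
      simp
    · intro r hr s hs hrs
      rw [mem_coe, mem_filter, mem_range] at hr hs
      have := (ZMod.natCast_eq_natCast_iff' r s p).1 hrs
      rwa [Nat.mod_eq_of_lt hr.1, Nat.mod_eq_of_lt hs.1] at this
  calc ((range p).filter fun r : ℕ => (p : ℤ) ∣ f.eval (r : ℤ)).card
      ≤ (f.map (Int.castRingHom (ZMod p))).roots.toFinset.card := h1
    _ ≤ Multiset.card (f.map (Int.castRingHom (ZMod p))).roots := Multiset.toFinset_card_le _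
    _ ≤ (f.map (Int.castRingHom (ZMod p))).natDegree := Polynomial.card_roots' _
    _ ≤ f.natDegree := Polynomial.natDegree_map_le
    _ ≤ 2 := hd

/-- the values divisible by a given squarefree number -/
lemma divisible (f : Polynomial ℤ) (hd : f.natDegree ≤ 2) (k : ℕ) (hk : f.coeff k ≠ 0) (R N : ℕ)
    (hR : Squarefree R) :
    (((Icc 1 N).filter fun n : ℕ => (R : ℤ) ∣ f.eval (n : ℤ)).card : ℝ) ≤
      (f.coeff k).natAbs * 2 ^ R.primeFactors.card * ((N : ℝ) / R + 1) := by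
  classical
  have hR0 : R ≠ 0 := hR.ne_zero
  have hRprod : ∏ p ∈ R.primeFactors, p = R := Nat.prod_primeFactors_of_squarefree hR
  obtain ⟨S, hS⟩ : ∃ S : ℕ → Finset ℕ, S = fun p => (range p).filter fun r : ℕ => (p : ℤ) ∣ f.eval (r : ℤ) :=
    ⟨_, rfl⟩
  -- reduction modulo `p`
  have hmod : ∀ n p : ℕ, (p : ℤ) ∣ f.eval (n : ℤ) → (p : ℤ) ∣ f.eval ((n % p : ℕ) : ℤ) := by
    intro n p h
    have h1 : ((n : ℤ) - ((n % p : ℕ) : ℤ)) ∣ f.eval (n : ℤ) - f.eval ((n % p : ℕ) : ℤ) :=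
      Polynomial.sub_dvd_eval_sub _ _ _
    have h2 : (p : ℤ) ∣ (n : ℤ) - ((n % p : ℕ) : ℤ) := by
      have := Nat.mod_add_div n p
      refine ⟨(n / p : ℕ), ?_⟩
      have h3 : ((n % p + p * (n / p) : ℕ) : ℤ) = n := by rw [this]
      push_cast at h3 ⊢
      linarith
    exact (dvd_sub_right h).1 (h2.trans h1)
  have h1 : ((Icc 1 N).filter fun n : ℕ => (R : ℤ) ∣ f.eval (n : ℤ)).card ≤
      ((range (N / R + 1)) ×ˢ (R.primeFactors.pi S)).card := by
    refine card_le_card_of_injOn (fun n : ℕ => (n / R, fun p _ => n % p)) ?_ ?_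
    · intro n hn
      rw [mem_coe, mem_filter, mem_Icc] at hn
      obtain ⟨⟨a1, a2⟩, a3⟩ := hn
      rw [mem_coe, mem_product, mem_range, mem_pi]
      refine ⟨Nat.lt_succ_of_le (Nat.div_le_div_right a2), fun p hp => ?_⟩
      have hpp := Nat.prime_of_mem_primeFactors hp
      rw [hS]
      refine mem_filter.2 ⟨mem_range.2 (Nat.mod_lt _ hpp.pos), hmod n p ?_⟩
      exact (Int.natCast_dvd_natCast.2 (Nat.dvd_of_mem_primeFactors hp)).trans a3
    · intro n _ m _ hnm
      simp only [Prod.mk.injEq] at hnm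
      obtain ⟨b1, b2⟩ := hnm
      have b3 : n ≡ m [MOD R] := by
        rw [Nat.modEq_iff_dvd, ← Int.dvd_natAbs, Int.natCast_dvd_natCast, ← hRprod]
        refine Finset.prod_primes_dvd _ (fun p hp => (Nat.prime_of_mem_primeFactors hp).prime) ?_
        intro p hp
        have b5 := congrFun (congrFun b2 p) hp
        rw [← Int.natCast_dvd_natCast, Int.dvd_natAbs, ← Nat.modEq_iff_dvd]
        exact b5
      have b4 : n % R = m % R := b3
      rw [← Nat.div_add_mod n R, ← Nat.div_add_mod m R, b1, b4]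
  have h2 : (R.primeFactors.pi S).card ≤ (f.coeff k).natAbs * 2 ^ R.primeFactors.card := by
    rw [card_pi]
    have h3 : ∀ p ∈ R.primeFactors, (S p).card ≤ (if (p : ℤ) ∣ f.coeff k then p else 1) * 2 := by
      intro p hp
      have hpp := Nat.prime_of_mem_primeFactors hp
      rw [hS]
      split_ifs with hpk
      · refine (card_filter_le _ _).trans ?_
        rw [card_range]
        omega
      · rw [one_mul]
        exact roots_card f hd k p hpp hpk
    refine (prod_le_prod' h3).trans ?_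
    rw [prod_mul_distrib, prod_const]
    refine Nat.mul_le_mul_right _ ?_
    rw [← prod_filter]
    refine Nat.le_of_dvd (Int.natAbs_pos.2 hk) ?_
    refine Finset.prod_primes_dvd _ (fun p hp => ?_) ?_
    · exact (Nat.prime_of_mem_primeFactors (mem_filter.1 hp).1).prime
    · intro p hp
      rw [← Int.natCast_dvd_natCast, Int.dvd_natAbs]
      exact (mem_filter.1 hp).2
  have h3 : ((N / R : ℕ) : ℝ) ≤ (N : ℝ) / R := Nat.cast_div_le
  calc (((Icc 1 N).filter fun n : ℕ => (R : ℤ) ∣ f.eval (n : ℤ)).card : ℝ)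
      ≤ (((range (N / R + 1)) ×ˢ (R.primeFactors.pi S)).card : ℝ) := by exact_mod_cast h1
    _ = ((N / R : ℕ) + 1 : ℝ) * ((R.primeFactors.pi S).card : ℝ) := by
        rw [card_product, card_range]; push_cast; ring
    _ ≤ ((N / R : ℕ) + 1 : ℝ) * ((f.coeff k).natAbs * 2 ^ R.primeFactors.card) := by
        refine mul_le_mul_of_nonneg_left ?_ (by positivity)
        exact_mod_cast h2
    _ ≤ ((N : ℝ) / R + 1) * ((f.coeff k).natAbs * 2 ^ R.primeFactors.card) := by
        refine mul_le_mul_of_nonneg_right (by linarith) (by positivity)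
    _ = _ := by ring

/-- the size of the values -/
lemma size (f : Polynomial ℤ) (hd : f.natDegree ≤ 2) : ∃ L : ℕ, 1 ≤ L ∧ ∀ n N : ℕ, 1 ≤ n → n ≤ N →
    (f.eval (n : ℤ)).natAbs ≤ L * N ^ 2 := by
  refine ⟨1 + ∑ i ∈ range 3, (f.coeff i).natAbs, by omega, fun n N h1 h2 => ?_⟩
  rw [Polynomial.eval_eq_sum_range' (show f.natDegree < 3 by omega)]
  have hN : 1 ≤ N := by omega
  have h3 : ∀ i ∈ range 3, (f.coeff i * (n : ℤ) ^ i).natAbs ≤ (f.coeff i).natAbs * N ^ 2 := by
    intro i hi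
    rw [mem_range] at hi
    rw [Int.natAbs_mul, Int.natAbs_pow, Int.natAbs_natCast]
    refine Nat.mul_le_mul_left _ ?_
    exact (Nat.pow_le_pow_left h2 i).trans (Nat.pow_le_pow_right hN (by omega))
  calc (∑ i ∈ range 3, f.coeff i * (n : ℤ) ^ i).natAbs
      ≤ ∑ i ∈ range 3, (f.coeff i * (n : ℤ) ^ i).natAbs := Int.natAbs_sum_le _ _
    _ ≤ ∑ i ∈ range 3, (f.coeff i).natAbs * N ^ 2 := sum_le_sum h3
    _ = (∑ i ∈ range 3, (f.coeff i).natAbs) * N ^ 2 := by rw [sum_mul]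
    _ ≤ _ := Nat.mul_le_mul_right _ (by omega)

/-- a triple which violates the inequality with a large exponent has a large radical -/
lemma large_radical {a b : ℕ} (ha : 0 < a) (hb : 0 < b) (hab : Nat.Coprime a b) {M : ℝ} (hM : 1 ≤ M)
    (h : (rad (a * b * (a + b)) : ℝ) ^ M ≤ ((a + b : ℕ) : ℝ)) :
    Real.exp ((Real.log M) ^ ((1 : ℝ) / 6) / 12) ≤ 2 * rad (a * b * (a + b)) := by
  obtain ⟨R, hR⟩ : ∃ R, R = rad (a * b * (a + b)) := ⟨_, rfl⟩
  have hR2 : 2 ≤ R := by
    have h1 : 1 < a * b * (a + b) := by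
      have : 1 ≤ a * b := Nat.mul_pos ha hb
      nlinarith
    obtain ⟨p, hp⟩ := Nat.nonempty_primeFactors.2 h1
    rw [hR]
    have h2 : p ∣ rad (a * b * (a + b)) := Finset.dvd_prod_of_mem _ hp
    exact (Nat.prime_of_mem_primeFactors hp).two_le.trans (Nat.le_of_dvd (rad_pos _) h2)
  have hR1 : 1 ≤ R := by omega
  have hr2 : (2 : ℝ) ≤ R := by exact_mod_cast hR2
  have hr0 : (0 : ℝ) < R := by linarith
  rw [← hR] at h ⊢
  have hlog : 1 / 2 ≤ Real.log R := by
    have h1 : Real.log 2 ≤ Real.log R := Real.log_le_log (by norm_num) hr2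
    have := Real.log_two_gt_d9
    linarith
  have hc0 : (0 : ℝ) < ((a + b : ℕ) : ℝ) := by
    have : 0 < a + b := by omega
    exact_mod_cast this
  have h1 : Real.log ((a + b : ℕ) : ℝ) ≤ Real.exp (Pool.Agent.T2H20.AH.Hb R) :=
    Pool.Agent.T2H20.AH.height_q (q := (a, b)) ⟨ha, hb, hab⟩ hR1
      (Pool.Agent.T2H20.AH.rads_le' ha hb (by rw [hR]; exact le_refl _))
  have h2 : M * Real.log R ≤ Real.log ((a + b : ℕ) : ℝ) := by
    rw [← Real.log_rpow hr0]
    exact Real.log_le_log (by positivity) h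
  have h3 : M / 2 ≤ Real.exp (Pool.Agent.T2H20.AH.Hb R) := by nlinarith
  have hM0 : 0 < M := by linarith
  have h4 : Real.log M ≤ Real.log 2 + Pool.Agent.T2H20.AH.Hb R := by
    have h5 : Real.log (M / 2) ≤ Pool.Agent.T2H20.AH.Hb R := by
      rw [Real.log_le_iff_le_exp (by positivity)]
      exact h3
    rw [Real.log_div hM0.ne' (by norm_num)] at h5
    linarith
  have h5 : Real.log 2 ≤ 1 := by
    have := Real.log_two_lt_d9
    linarith
  obtain ⟨u, hu⟩ : ∃ u, u = 1 + 3 * Real.log R := ⟨_, rfl⟩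
  have hu1 : 1 ≤ u := by rw [hu]; linarith
  have h6 : Real.log M ≤ (4 * u) ^ 6 := by
    have e : Pool.Agent.T2H20.AH.Hb R = 3000 * u ^ 6 := by
      rw [Pool.Agent.T2H20.AH.Hb, Real.log_pow, hu]
      push_cast
      ring
    rw [e] at h4
    have h7 : 1 ≤ u ^ 6 := one_le_pow₀ hu1
    nlinarith
  have h7 : (Real.log M) ^ ((1 : ℝ) / 6) ≤ 4 * u := by
    have h8 : 0 ≤ Real.log M := Real.log_nonneg hM
    calc (Real.log M) ^ ((1 : ℝ) / 6) ≤ ((4 * u) ^ 6) ^ ((1 : ℝ) / 6) :=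
          Real.rpow_le_rpow h8 h6 (by norm_num)
      _ = 4 * u := by
          rw [← Real.rpow_natCast, ← Real.rpow_mul (by positivity)]
          norm_num
  calc Real.exp ((Real.log M) ^ ((1 : ℝ) / 6) / 12) ≤ Real.exp (1 / 3 + Real.log R) := by
        rw [Real.exp_le_exp]
        linarith
    _ = Real.exp (1 / 3) * R := by rw [Real.exp_add, Real.exp_log hr0]
    _ ≤ 2 * R := by
        refine mul_le_mul_of_nonneg_right ?_ hr0.le
        have h8 : Real.exp (1 / 3) ≤ 2 := by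
          rw [← Real.le_log_iff_exp_le (by norm_num)]
          have := Real.log_two_gt_d9
          linarith
        exact h8

/-- **Oesterlé's inequality for the triples composed of the primes of a random value.** There is
`κ > 0` such that for every non-zero polynomial `f` with integral coefficients of degree at most `2`
there is a constant `K` such that for all `M ≥ 1` and `N ≥ 1` the following holds for all `n ≤ N` with
at most `K N exp (- κ (log M) ^ (1/6))` exceptions: every triple of positive coprime integers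
`a + b = c` all of whose primes divide `f(n) ≠ 0` satisfies `c < rad (abc) ^ M`. -/
theorem result : ∃ κ : ℝ, 0 < κ ∧ ∀ f : Polynomial ℤ, f ≠ 0 → f.natDegree ≤ 2 →
    ∃ K : ℝ, 0 < K ∧ ∀ M : ℝ, 1 ≤ M → ∀ N : ℕ, 1 ≤ N →
      ({n | n ∈ Bad f M ∧ 1 ≤ n ∧ n ≤ N}.ncard : ℝ) ≤
        K * N * Real.exp (-κ * (Real.log M) ^ ((1 : ℝ) / 6)) := by
  classical
  obtain ⟨M₀, C, hC, hV⟩ := SquareRootAllHeights.result (1 / 48) (by norm_num)
  obtain ⟨D, hD, hω⟩ := Pool.Agent.H785R2.ABC.stmtA1 2 (by norm_num) (1 / 48) (by norm_num)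
  refine ⟨1 / 192, by norm_num, fun f hf hd => ?_⟩
  obtain ⟨k, hk⟩ : ∃ k, f.coeff k ≠ 0 := by
    by_contra hcon
    push Not at hcon
    exact hf (Polynomial.ext (by simpa using hcon))
  obtain ⟨L, hL1, hL⟩ := size f hd
  obtain ⟨G, hG⟩ : ∃ G, G = (f.coeff k).natAbs := ⟨_, rfl⟩
  obtain ⟨S, hS⟩ : ∃ S : ℝ, S = C * 2 ^ ((17 : ℝ) / 48) * (1 - 2 ^ ((17 : ℝ) / 48 - 5 / 12))⁻¹ := ⟨_, rfl⟩
  have hq : (2 : ℝ) ^ ((17 : ℝ) / 48 - 5 / 12) < 1 :=
    Real.rpow_lt_one_of_one_lt_of_neg (by norm_num) (by norm_num)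
  have hS0 : 0 < S := by
    rw [hS]
    have : 0 < 1 - (2 : ℝ) ^ ((17 : ℝ) / 48 - 5 / 12) := by linarith
    positivity
  obtain ⟨T, hT⟩ : ∃ T : ℝ, T = G * D * (1 + √(L : ℝ)) := ⟨_, rfl⟩
  have hT0 : 0 ≤ T := by rw [hT]; positivity
  obtain ⟨E, hE⟩ : ∃ E : ℝ, E = Real.exp (1 / 192 * (Real.log (max M₀ 1 : ℕ)) ^ ((1 : ℝ) / 6)) := ⟨_, rfl⟩
  have hE0 : 0 < E := by rw [hE]; positivity
  refine ⟨T * S * 2 ^ ((1 : ℝ) / 16) + E, by positivity, fun M hM N hN => ?_⟩
  have hN0 : (0 : ℝ) < N := by exact_mod_cast hN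
  have hM0 : 0 < M := by linarith
  have hZfin : ({n | n ∈ Bad f M ∧ 1 ≤ n ∧ n ≤ N} : Set ℕ) ⊆ (Icc 1 N : Finset ℕ) := by
    rintro n ⟨-, h1, h2⟩
    rw [mem_coe, mem_Icc]
    exact ⟨h1, h2⟩
  have hexp0 : 0 < Real.exp (-(1 / 192) * (Real.log M) ^ ((1 : ℝ) / 6)) := Real.exp_pos _
  rcases le_or_gt M M₀ with hcase | hcase
  · -- small exponents: the trivial bound
    have h1 : ({n | n ∈ Bad f M ∧ 1 ≤ n ∧ n ≤ N} : Set ℕ).ncard ≤ N := by
      have := Set.ncard_le_ncard hZfin (Finset.finite_toSet _)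
      rw [Set.ncard_coe_finset, Nat.card_Icc] at this
      omega
    have h2 : (1 : ℝ) ≤ E * Real.exp (-(1 / 192) * (Real.log M) ^ ((1 : ℝ) / 6)) := by
      rw [hE, ← Real.exp_add]
      refine Real.one_le_exp ?_
      have h3 : (Real.log M) ^ ((1 : ℝ) / 6) ≤ (Real.log (max M₀ 1 : ℕ)) ^ ((1 : ℝ) / 6) := by
        refine Real.rpow_le_rpow (Real.log_nonneg hM) (Real.log_le_log hM0 ?_) (by norm_num)
        exact hcase.trans (by exact_mod_cast le_max_left _ _)
      linarith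
    calc (({n | n ∈ Bad f M ∧ 1 ≤ n ∧ n ≤ N} : Set ℕ).ncard : ℝ) ≤ N := by exact_mod_cast h1
      _ ≤ N * (E * Real.exp (-(1 / 192) * (Real.log M) ^ ((1 : ℝ) / 6))) :=
          le_mul_of_one_le_right hN0.le h2
      _ = E * N * Real.exp (-(1 / 192) * (Real.log M) ^ ((1 : ℝ) / 6)) := by ring
      _ ≤ _ := by
          refine mul_le_mul_of_nonneg_right (mul_le_mul_of_nonneg_right ?_ hN0.le) hexp0.le
          have : 0 ≤ T * S * 2 ^ ((1 : ℝ) / 16) := by positivity
          linarith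
  · -- large exponents
    obtain ⟨X, hX⟩ : ∃ X, X = L * N ^ 2 := ⟨_, rfl⟩
    have hX1 : 1 ≤ X := by
      rw [hX]
      exact Nat.mul_pos hL1 (pow_pos hN 2)
    obtain ⟨hfin, -⟩ := hV X hX1
    obtain ⟨F, hF⟩ : ∃ F : Finset (ℕ × ℕ), F = hfin.toFinset.filter fun q =>
        (rad (q.1 * q.2 * (q.1 + q.2)) : ℝ) ^ M ≤ ((q.1 + q.2 : ℕ) : ℝ) := ⟨_, rfl⟩
    obtain ⟨r, hr⟩ : ∃ r : ℕ × ℕ → ℕ, r = fun q => rad (q.1 * q.2 * (q.1 + q.2)) := ⟨_, rfl⟩
    have hr1 : ∀ q, 1 ≤ r q := fun q => by rw [hr]; exact rad_pos _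
    have hFmem : ∀ q ∈ F, q ∈ SquareRootAllHeights.exceptions M₀ X ∧
        (r q : ℝ) ^ M ≤ ((q.1 + q.2 : ℕ) : ℝ) := by
      intro q hq
      rw [hF, mem_filter, Set.Finite.mem_toFinset] at hq
      rw [hr]
      exact hq
    -- the sum over the violators
    have hsum : ∑ q ∈ F, (r q : ℝ) ^ (-(5 / 12 : ℝ)) ≤ S := by
      rw [hS]
      refine sum_bound r hr1 C (17 / 48) (5 / 12) hC.le (by norm_num) (by norm_num) F ?_
      intro Y hY
      obtain ⟨hfinY, hcY, -⟩ := hV Y hY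
      have hsub : ((F.filter fun q => r q ≤ Y : Finset (ℕ × ℕ)) : Set (ℕ × ℕ)) ⊆
          SquareRootAllHeights.exceptions M₀ Y := by
        intro q hq
        rw [mem_coe, mem_filter] at hq
        obtain ⟨a1, a2, a3⟩ := (hFmem q hq.1).1
        refine ⟨a1, ?_, a3⟩
        rw [hr] at hq
        exact hq.2
      have h1 := Set.ncard_le_ncard hsub hfinY
      rw [Set.ncard_coe_finset] at h1
      have e : (1 : ℝ) / 3 + 1 / 48 = 17 / 48 := by norm_num
      rw [e] at hcY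
      exact le_trans (by exact_mod_cast h1) hcY
    -- the covering
    have hcov : ({n | n ∈ Bad f M ∧ 1 ≤ n ∧ n ≤ N} : Set ℕ) ⊆
        (F.biUnion fun q => (Icc 1 N).filter fun n : ℕ => (r q : ℤ) ∣ f.eval (n : ℤ) : Finset ℕ) := by
      rintro n ⟨⟨hn0, a, b, c, ha, hb, hab, habc, hp, hc⟩, hn1, hn2⟩
      subst habc
      have hdvd : rad (a * b * (a + b)) ∣ (f.eval (n : ℤ)).natAbs := by
        refine Finset.prod_primes_dvd _ (fun p hp' => (Nat.prime_of_mem_primeFactors hp').prime) ?_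
        intro p hp'
        rw [← Int.natCast_dvd_natCast, Int.dvd_natAbs]
        exact hp p (Nat.prime_of_mem_primeFactors hp') (Nat.dvd_of_mem_primeFactors hp')
      have hle : rad (a * b * (a + b)) ≤ X := by
        rw [hX]
        exact (Nat.le_of_dvd (Int.natAbs_pos.2 hn0) hdvd).trans (hL n N hn1 hn2)
      rw [mem_coe, mem_biUnion]
      refine ⟨(a, b), ?_, ?_⟩
      · rw [hF, mem_filter, Set.Finite.mem_toFinset]
        refine ⟨⟨⟨ha, hb, hab⟩, hle, ?_⟩, hc⟩
        have h1 : (rad (a * b * (a + b)) : ℝ) ^ (M₀ : ℝ) ≤ ((a + b : ℕ) : ℝ) :=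
          (Real.rpow_le_rpow_of_exponent_le (one_le_rad _) hcase.le).trans hc
        rw [Real.rpow_natCast] at h1
        exact_mod_cast h1
      · rw [mem_filter, mem_Icc, hr]
        refine ⟨⟨hn1, hn2⟩, ?_⟩
        rw [← Int.dvd_natAbs]
        exact Int.natCast_dvd_natCast.2 hdvd
    have hcard : (({n | n ∈ Bad f M ∧ 1 ≤ n ∧ n ≤ N} : Set ℕ).ncard : ℝ) ≤
        ∑ q ∈ F, (((Icc 1 N).filter fun n : ℕ => (r q : ℤ) ∣ f.eval (n : ℤ)).card : ℝ) := by
      have h1 := Set.ncard_le_ncard hcov (Finset.finite_toSet _)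
      rw [Set.ncard_coe_finset] at h1
      have h2 := h1.trans card_biUnion_le
      exact_mod_cast h2
    obtain ⟨W, hW⟩ : ∃ W : ℝ, W = Real.exp (-(1 / 192) * (Real.log M) ^ ((1 : ℝ) / 6)) := ⟨_, rfl⟩
    have hterm : ∀ q ∈ F, (((Icc 1 N).filter fun n : ℕ => (r q : ℤ) ∣ f.eval (n : ℤ)).card : ℝ) ≤
        T * N * 2 ^ ((1 : ℝ) / 16) * W * (r q : ℝ) ^ (-(5 / 12 : ℝ)) := by
      intro q hq
      obtain ⟨⟨⟨a1, a2, a3⟩, a4, a5⟩, a6⟩ := hFmem q hq
      obtain ⟨R, hR⟩ : ∃ R, R = r q := ⟨_, rfl⟩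
      have hRX : R ≤ X := by
        rw [hR, hr]
        exact a4
      have hRsq : Squarefree R := by
        rw [hR, hr]
        exact Finset.squarefree_prod_of_pairwise_isCoprime
          (fun p hp p' hp' hne => Nat.coprime_iff_isRelPrime.1 ((Nat.coprime_primes
            (Nat.prime_of_mem_primeFactors hp) (Nat.prime_of_mem_primeFactors hp')).2 hne))
          (fun p hp => (Nat.prime_of_mem_primeFactors hp).prime.squarefree)
      have hR0 : (0 : ℝ) < R := by
        rw [hR]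
        exact_mod_cast hr1 q
      have hR1 : (1 : ℝ) ≤ R := by
        rw [hR]
        exact_mod_cast hr1 q
      have hbig : Real.exp ((Real.log M) ^ ((1 : ℝ) / 6) / 12) ≤ 2 * R := by
        rw [hR, hr]
        refine large_radical a1 a2 a3 hM ?_
        rw [hr] at a6
        exact a6
      rw [← hR]
      have h1 := divisible f hd k hk R N hRsq
      rw [← hG] at h1
      have h2 : (2 : ℝ) ^ R.primeFactors.card ≤ D * (R : ℝ) ^ ((1 : ℝ) / 48) :=
        hω R (by rw [hR]; exact hr1 q)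
      have h3 : (N : ℝ) / R + 1 ≤ (1 + √(L : ℝ)) * N * (R : ℝ) ^ (-(1 / 2 : ℝ)) := by
        have h4 : (N : ℝ) / R ≤ N * (R : ℝ) ^ (-(1 / 2 : ℝ)) := by
          rw [div_eq_mul_inv, ← Real.rpow_neg_one]
          exact mul_le_mul_of_nonneg_left
            (Real.rpow_le_rpow_of_exponent_le hR1 (by norm_num)) hN0.le
        have h5 : 1 ≤ √(L : ℝ) * N * (R : ℝ) ^ (-(1 / 2 : ℝ)) := by
          have h6 : (R : ℝ) ^ (1 / 2 : ℝ) ≤ √(L : ℝ) * N := by
            rw [← Real.sqrt_eq_rpow]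
            have h7 : (R : ℝ) ≤ L * (N : ℝ) ^ 2 := by
              have : R ≤ L * N ^ 2 := by rw [← hX]; exact hRX
              exact_mod_cast this
            calc √(R : ℝ) ≤ √(L * (N : ℝ) ^ 2) := Real.sqrt_le_sqrt h7
              _ = √(L : ℝ) * N := by rw [Real.sqrt_mul (by positivity), Real.sqrt_sq hN0.le]
          rw [Real.rpow_neg hR0.le, ← div_eq_mul_inv, le_div_iff₀ (by positivity), one_mul]
          exact h6
        nlinarith
      calc (((Icc 1 N).filter fun n : ℕ => (R : ℤ) ∣ f.eval (n : ℤ)).card : ℝ)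
          ≤ G * 2 ^ R.primeFactors.card * ((N : ℝ) / R + 1) := h1
        _ ≤ G * (D * (R : ℝ) ^ ((1 : ℝ) / 48)) *
            ((1 + √(L : ℝ)) * N * (R : ℝ) ^ (-(1 / 2 : ℝ))) :=
            mul_le_mul (mul_le_mul_of_nonneg_left h2 (Nat.cast_nonneg _)) h3 (by positivity)
              (by positivity)
        _ = T * N * ((R : ℝ) ^ ((1 : ℝ) / 48) * (R : ℝ) ^ (-(1 / 2 : ℝ))) := by rw [hT]; ring
        _ = T * N * ((R : ℝ) ^ (-(1 / 16 : ℝ)) * (R : ℝ) ^ (-(5 / 12 : ℝ))) := by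
            rw [← Real.rpow_add hR0, ← Real.rpow_add hR0]
            norm_num
        _ ≤ T * N * ((2 ^ ((1 : ℝ) / 16) * W) * (R : ℝ) ^ (-(5 / 12 : ℝ))) := by
            refine mul_le_mul_of_nonneg_left ?_ (by positivity)
            refine mul_le_mul_of_nonneg_right ?_ (by positivity)
            have h8 : Real.exp ((Real.log M) ^ ((1 : ℝ) / 6) / 12) / 2 ≤ R := by linarith
            calc (R : ℝ) ^ (-(1 / 16 : ℝ))
                ≤ (Real.exp ((Real.log M) ^ ((1 : ℝ) / 6) / 12) / 2) ^ (-(1 / 16 : ℝ)) :=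
                  Real.rpow_le_rpow_of_nonpos (by positivity) h8 (by norm_num)
              _ = 2 ^ ((1 : ℝ) / 16) * W := by
                  rw [Real.div_rpow (by positivity) (by norm_num), ← Real.exp_mul,
                    Real.rpow_neg (by norm_num : (0 : ℝ) ≤ 2), div_inv_eq_mul, mul_comm, hW]
                  congr 2
                  ring
        _ = _ := by ring
    calc (({n | n ∈ Bad f M ∧ 1 ≤ n ∧ n ≤ N} : Set ℕ).ncard : ℝ)
        ≤ ∑ q ∈ F, (((Icc 1 N).filter fun n : ℕ => (r q : ℤ) ∣ f.eval (n : ℤ)).card : ℝ) := hcard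
      _ ≤ ∑ q ∈ F, T * N * 2 ^ ((1 : ℝ) / 16) * W * (r q : ℝ) ^ (-(5 / 12 : ℝ)) := sum_le_sum hterm
      _ = T * N * 2 ^ ((1 : ℝ) / 16) * W * ∑ q ∈ F, (r q : ℝ) ^ (-(5 / 12 : ℝ)) := by rw [mul_sum]
      _ ≤ T * N * 2 ^ ((1 : ℝ) / 16) * W * S := by
          refine mul_le_mul_of_nonneg_left hsum ?_
          rw [hW]
          positivity
      _ = T * S * 2 ^ ((1 : ℝ) / 16) * N * W := by ring
      _ ≤ (T * S * 2 ^ ((1 : ℝ) / 16) + E) * N * W := by
          refine mul_le_mul_of_nonneg_right (mul_le_mul_of_nonneg_right ?_ hN0.le)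
            (by rw [hW]; positivity)
          linarith
      _ = _ := by rw [hW]

end Pool.Agent.Results.MP_2ec8a3_nt.PrimesOfRandomValues
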