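import Mathlib
import Pool.Graph.R_seed8.TH498.AR.Base
import Pool.Graph.R_seed8.TH867.SR.LB
import Pool.Graph.R_pool_sql_team_seeded_707910d6.Results.MP_2ec8a3_nt.SquareRootAllHeights

/-!
# The abc triples, of all heights, whose members have radicals at most `A`, `B`, `C`

Kane counted the abc triples of height `c ≤ N` with `rad a ≤ N ^ α`, `rad b ≤ N ^ β`, `rad c ≤ N ^ γ`.
Here there is no bound for `c`. The number `N(A, B, C)` of the abc triples with `rad a ≤ A`,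
`rad b ≤ B`, `rad c ≤ C` is `min (A B, A C, B C)` up to a factor `(A B C) ^ ε`, for all `A, B, C ≥ 2`,
and for a suitable exponent `M = M(ε)` at most `(A B C) ^ ε` times the *square root* of this number of
them violate Oesterlé's inequality `c < rad (abc) ^ M`.
-/

set_option autoImplicit false

namespace Pool.Agent.Results.MP_2ec8a3_nt.RadicalBoxes

open Finset

/-- the product of the primes dividing `n` -/
def radical (n : ℕ) : ℕ := ∏ p ∈ n.primeFactors, p

/-- the abc triples `(a, b, a + b)`, written `(a, b)`, of any height, with `rad a ≤ A`, `rad b ≤ B`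
and `rad (a + b) ≤ C` -/
def triples (A B C : ℝ) : Set (ℕ × ℕ) :=
  {t | 0 < t.1 ∧ 0 < t.2 ∧ Nat.Coprime t.1 t.2 ∧ (radical t.1 : ℝ) ≤ A ∧ (radical t.2 : ℝ) ≤ B ∧
    (radical (t.1 + t.2) : ℝ) ≤ C}

/-- those among them with `c = a + b ≥ rad (abc) ^ M` -/
def violating (M : ℕ) (A B C : ℝ) : Set (ℕ × ℕ) :=
  {t | t ∈ triples A B C ∧ radical (t.1 * t.2 * (t.1 + t.2)) ^ M ≤ t.1 + t.2}

/-- the minimum of the three products -/
noncomputable def least (A B C : ℝ) : ℝ := min (A * B) (min (A * C) (B * C))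

lemma radical_pos (n : ℕ) : 0 < radical n :=
  Finset.prod_pos fun _ hp => (Nat.prime_of_mem_primeFactors hp).pos

lemma one_le_radical (n : ℕ) : (1 : ℝ) ≤ radical n := by exact_mod_cast radical_pos n

lemma radical_le {n : ℕ} (hn : 0 < n) : radical n ≤ n := Nat.le_of_dvd hn (Nat.prod_primeFactors_dvd n)

lemma radical_mul {m n : ℕ} (h : Nat.Coprime m n) : radical (m * n) = radical m * radical n := by
  unfold radical
  rw [h.primeFactors_mul, prod_union h.disjoint_primeFactors]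

lemma radical_mul_le {m n : ℕ} (hm : m ≠ 0) (hn : n ≠ 0) :
    radical (m * n) ≤ radical m * radical n := by
  unfold radical
  rw [Nat.primeFactors_mul hm hn, ← prod_union_inter]
  refine Nat.le_mul_of_pos_right _ (Finset.prod_pos fun p hp => ?_)
  exact (Nat.prime_of_mem_primeFactors (mem_inter.1 hp).1).pos

lemma radical3 {a b : ℕ} (h : Nat.Coprime a b) :
    radical (a * b * (a + b)) = radical a * radical b * radical (a + b) := by
  rw [radical_mul, radical_mul h]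
  refine Nat.Coprime.mul_left ?_ ?_
  · rw [Nat.coprime_self_add_right]; exact h
  · rw [Nat.coprime_add_self_right]; exact h.symm

/-- the number of integers up to `Z` with radical at most `R` -/
lemma radical_count (τ : ℝ) (hτ : 0 < τ) : ∃ K : ℝ, 1 ≤ K ∧ ∀ Z R : ℝ, 1 ≤ Z → 1 ≤ R →
    ∀ S : Finset ℕ, (∀ n ∈ S, 0 < n ∧ (n : ℝ) ≤ Z ∧ (radical n : ℝ) ≤ R) →
      (S.card : ℝ) ≤ K * Z ^ τ * R := by
  obtain ⟨C1, C2, h1, h2, h⟩ := Pool.Agent.TH498.AR.sum_bound τ hτ
  refine ⟨C1, h1, fun Z R hZ hR S hS => ?_⟩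
  have hZ0 : 0 < Z := by linarith
  have hR0 : 0 < R := by linarith
  have hsub : S ⊆ Icc 1 ⌊Z⌋₊ := by
    intro n hn
    obtain ⟨a1, a2, a3⟩ := hS n hn
    exact mem_Icc.2 ⟨a1, Nat.le_floor a2⟩
  have h3 : ∑ n ∈ S, Pool.Agent.TH498.AR.ff τ ∅ n ≤ C1 := by
    refine (sum_le_sum_of_subset_of_nonneg hsub fun n _ _ =>
      Pool.Agent.TH498.AR.ff_nonneg τ ∅ n).trans ?_
    have := h ∅ ⌊Z⌋₊
    simpa using this
  have h4 : ∀ n ∈ S, (1 : ℝ) ≤ Z ^ τ * R * Pool.Agent.TH498.AR.ff τ ∅ n := by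
    intro n hn
    obtain ⟨a1, a2, a3⟩ := hS n hn
    have n0 : (0 : ℝ) < n := by exact_mod_cast a1
    have hrad : Pool.Agent.TH498.AR.radP ∅ n = radical n := by
      unfold Pool.Agent.TH498.AR.radP radical
      simp
    unfold Pool.Agent.TH498.AR.ff
    rw [hrad]
    have r0 : (0 : ℝ) < radical n := by exact_mod_cast radical_pos n
    have e : Z ^ τ * R * ((n : ℝ) ^ (-τ) / (radical n : ℝ)) = (Z / n) ^ τ * (R / radical n) := by
      rw [Real.div_rpow hZ0.le n0.le, Real.rpow_neg n0.le]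
      field_simp
    rw [e]
    have e1 : 1 ≤ (Z / n) ^ τ := Real.one_le_rpow (by rw [le_div_iff₀ n0]; linarith) hτ.le
    have e2 : 1 ≤ R / radical n := by rw [le_div_iff₀ r0]; linarith
    nlinarith
  calc (S.card : ℝ) = ∑ n ∈ S, (1 : ℝ) := by simp
    _ ≤ ∑ n ∈ S, Z ^ τ * R * Pool.Agent.TH498.AR.ff τ ∅ n := sum_le_sum h4
    _ = Z ^ τ * R * ∑ n ∈ S, Pool.Agent.TH498.AR.ff τ ∅ n := by rw [mul_sum]
    _ ≤ Z ^ τ * R * C1 := mul_le_mul_of_nonneg_left h3 (by positivity)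
    _ = _ := by ring

/-- coprime pairs in a rectangle -/
lemma rectangle (m n : ℕ) : (m : ℝ) * n / 4 ≤
    (((Ioc 0 m) ×ˢ (Ioc 0 n)).filter fun p => Nat.Coprime p.1 p.2).card := by
  classical
  set P := (Ioc 0 m) ×ˢ (Ioc 0 n) with hP
  set Q := P.filter fun p => Nat.Coprime p.1 p.2 with hQ
  set Q' := P.filter fun p => ¬ Nat.Coprime p.1 p.2 with hQ'
  have hPc : P.card = m * n := by
    rw [hP, Finset.card_product, Nat.card_Ioc, Nat.card_Ioc, Nat.sub_zero, Nat.sub_zero]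
  have h1 : P.card = Q.card + Q'.card :=
    (Finset.card_filter_add_card_filter_not (s := P) (fun p => Nat.Coprime p.1 p.2)).symm
  have h2 : Q'.card ≤ ∑ d ∈ Finset.Icc 2 m, (m / d) * (n / d) := by
    have hsub : Q' ⊆ (Finset.Icc 2 m).biUnion fun d =>
        ((Finset.Ioc 0 m).filter fun a => d ∣ a) ×ˢ ((Finset.Ioc 0 n).filter fun a => d ∣ a) := by
      intro p hp
      obtain ⟨h3, h4⟩ := Finset.mem_filter.1 hp
      obtain ⟨h5, h6⟩ := Finset.mem_product.1 h3
      obtain ⟨q, hq, hq1, hq2⟩ := Nat.Prime.not_coprime_iff_dvd.1 h4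
      rw [Finset.mem_biUnion]
      refine ⟨q, Finset.mem_Icc.2 ⟨hq.two_le, ?_⟩, Finset.mem_product.2
        ⟨Finset.mem_filter.2 ⟨h5, hq1⟩, Finset.mem_filter.2 ⟨h6, hq2⟩⟩⟩
      exact (Nat.le_of_dvd (Finset.mem_Ioc.1 h5).1 hq1).trans (Finset.mem_Ioc.1 h5).2
    refine (Finset.card_le_card hsub).trans (Finset.card_biUnion_le.trans
      (Finset.sum_le_sum fun d _ => ?_))
    rw [Finset.card_product, Nat.Ioc_filter_dvd_card_eq_div, Nat.Ioc_filter_dvd_card_eq_div]
  have h3 : ((∑ d ∈ Finset.Icc 2 m, (m / d) * (n / d) : ℕ) : ℝ) ≤ 3 / 4 * (m * n) := by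
    rcases Nat.lt_or_ge m 2 with h | h
    · rw [Finset.Icc_eq_empty (by omega), Finset.sum_empty, Nat.cast_zero]
      positivity
    · push_cast
      have h5 : ∀ d ∈ Icc 2 m, ((m / d : ℕ) : ℝ) * ((n / d : ℕ) : ℝ) ≤
          (m * n : ℝ) * (1 / (d : ℝ) ^ 2) := by
        intro d hd
        have d0 : (0 : ℝ) < d := by
          have := (mem_Icc.1 hd).1
          exact_mod_cast (by omega : 0 < d)
        have e1 : ((m / d : ℕ) : ℝ) ≤ (m : ℝ) / d := Nat.cast_div_le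
        have e2 : ((n / d : ℕ) : ℝ) ≤ (n : ℝ) / d := Nat.cast_div_le
        calc ((m / d : ℕ) : ℝ) * ((n / d : ℕ) : ℝ) ≤ (m : ℝ) / d * ((n : ℝ) / d) :=
              mul_le_mul e1 e2 (Nat.cast_nonneg _) (by positivity)
          _ = _ := by field_simp
      refine (sum_le_sum h5).trans ?_
      rw [← mul_sum]
      have h6 := Pool.Agent.TH867.SR.sum_sq_le m h
      have h7 : (0 : ℝ) < 1 / m := by
        have : (0 : ℝ) < m := by exact_mod_cast (by omega : 0 < m)
        positivity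
      have h8 : (0 : ℝ) ≤ (m : ℝ) * n := by positivity
      nlinarith
  have h4 : (Q'.card : ℝ) ≤ 3 / 4 * (m * n) := le_trans (by exact_mod_cast h2) h3
  have h5 : ((m * n : ℕ) : ℝ) = (Q.card : ℝ) + Q'.card := by
    rw [← hPc, h1]
    push_cast
    ring
  push_cast at h5
  linarith

lemma floor_half {A : ℝ} (hA : 2 ≤ A) : A / 4 ≤ (⌊A / 2⌋₊ : ℝ) := by
  have h1 : (1 : ℝ) ≤ ⌊A / 2⌋₊ := by
    exact_mod_cast Nat.le_floor (by push_cast; linarith : ((1 : ℕ) : ℝ) ≤ A / 2)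
  have h2 := Nat.lt_floor_add_one (A / 2)
  linarith

/-- the lower bound from pairs `a ≤ A' / 2`, `b ≤ B' / 2` -/
lemma lower_rect {A B C A' B' : ℝ} (hA' : 2 ≤ A') (hB' : 2 ≤ B') (h1 : A' ≤ A) (h2 : B' ≤ B)
    (h3 : A' ≤ C) (h4 : B' ≤ C) (hfin : (triples A B C).Finite) :
    A' * B' / 64 ≤ ((triples A B C).ncard : ℝ) := by
  classical
  have hr := rectangle ⌊A' / 2⌋₊ ⌊B' / 2⌋₊
  have hsub : ((((Ioc 0 ⌊A' / 2⌋₊) ×ˢ (Ioc 0 ⌊B' / 2⌋₊)).filter fun p => Nat.Coprime p.1 p.2 :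
      Finset (ℕ × ℕ)) : Set (ℕ × ℕ)) ⊆ triples A B C := by
    intro p hp
    rw [mem_coe, mem_filter, mem_product, mem_Ioc, mem_Ioc] at hp
    obtain ⟨⟨⟨a1, a2⟩, a3, a4⟩, a5⟩ := hp
    have b1 : (p.1 : ℝ) ≤ A' / 2 :=
      le_trans (by exact_mod_cast a2) (Nat.floor_le (by positivity))
    have b2 : (p.2 : ℝ) ≤ B' / 2 :=
      le_trans (by exact_mod_cast a4) (Nat.floor_le (by positivity))
    have r1 : (radical p.1 : ℝ) ≤ p.1 := by exact_mod_cast radical_le a1
    have r2 : (radical p.2 : ℝ) ≤ p.2 := by exact_mod_cast radical_le a3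
    have r3 : (radical (p.1 + p.2) : ℝ) ≤ p.1 + p.2 := by
      exact_mod_cast radical_le (by omega : 0 < p.1 + p.2)
    exact ⟨a1, a3, a5, by linarith, by linarith, by linarith⟩
  have h5 := Set.ncard_le_ncard hsub hfin
  rw [Set.ncard_coe_finset] at h5
  have h6 : ((((Ioc 0 ⌊A' / 2⌋₊) ×ˢ (Ioc 0 ⌊B' / 2⌋₊)).filter fun p => Nat.Coprime p.1 p.2).card : ℝ)
      ≤ ((triples A B C).ncard : ℝ) := by exact_mod_cast h5
  have h7 := floor_half hA'
  have h8 := floor_half hB'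
  have h9 : A' / 4 * (B' / 4) ≤ (⌊A' / 2⌋₊ : ℝ) * ⌊B' / 2⌋₊ :=
    mul_le_mul h7 h8 (by positivity) (Nat.cast_nonneg _)
  linarith

/-- the number of odd `b + j c`, `j < 2 k` -/
lemma odd_card {b c k : ℕ} (h : Nat.Coprime b c) :
    k ≤ ((range (2 * k)).filter fun j => Odd (b + j * c)).card := by
  rcases Nat.even_or_odd c with hc | hc
  · have hb : Odd b := by
      rw [← Nat.not_even_iff_odd]
      intro hb
      have := Nat.dvd_gcd hb.two_dvd hc.two_dvd
      rw [h] at this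
      omega
    have : (range (2 * k)).filter (fun j => Odd (b + j * c)) = range (2 * k) := by
      refine filter_true_of_mem fun j _ => ?_
      exact hb.add_even (hc.mul_left j)
    rw [this, card_range]
    omega
  · -- one of `2 i`, `2 i + 1`
    have hle : (range k).card ≤ ((range (2 * k)).filter fun j => Odd (b + j * c)).card := by
      refine card_le_card_of_injOn (fun i => if Odd b then 2 * i else 2 * i + 1) ?_ ?_
      · intro i hi
        rw [mem_coe, mem_range] at hi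
        rw [mem_coe, mem_filter, mem_range]
        by_cases hb : Odd b
        · simp only [hb, if_true]
          refine ⟨by omega, hb.add_even ?_⟩
          rw [mul_assoc]
          exact even_two_mul _
        · simp only [hb, if_false]
          refine ⟨by omega, ?_⟩
          rw [Nat.not_odd_iff_even] at hb
          refine hb.add_odd ?_
          exact (odd_two_mul_add_one i).mul hc
      · intro i _ i' _ h
        simp only at h
        split_ifs at h <;> omega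
    rwa [card_range] at hle

/-- the lower bound when the radical of the sum is the smallest -/
lemma lower_sum {A B C : ℝ} (hC : 2 ≤ C) (h1 : 2 * C ≤ B) (h2 : B ≤ A)
    (hfin : (triples A B C).Finite) : B * C / 512 ≤ ((triples A B C).ncard : ℝ) := by
  classical
  have hB : 4 ≤ B := by linarith
  -- the power of two
  obtain ⟨k, hk1, hk2⟩ : ∃ k : ℕ, (2 : ℝ) ^ (k + 1) * C ≤ B ∧ B < (2 : ℝ) ^ (k + 2) * C := by
    obtain ⟨n, hn1, hn2⟩ := exists_nat_pow_near (x := B / C) (y := 2)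
      (by rw [le_div_iff₀ (by linarith)]; linarith) (by norm_num)
    rw [le_div_iff₀ (by linarith)] at hn1
    rw [div_lt_iff₀ (by linarith)] at hn2
    rcases Nat.eq_zero_or_pos n with h0 | h0
    · subst h0
      norm_num at hn2
      linarith
    · refine ⟨n - 1, ?_, ?_⟩
      · rw [Nat.sub_add_cancel h0]; exact hn1
      · have : n - 1 + 2 = n + 1 := by omega
        rw [this]; exact hn2
  obtain ⟨N, hN⟩ : ∃ N : ℕ, N = ⌊C / 2⌋₊ := ⟨_, rfl⟩
  have hNC : (N : ℝ) ≤ C / 2 := by rw [hN]; exact Nat.floor_le (by linarith)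
  have hN4 : C / 4 ≤ N := by rw [hN]; exact floor_half hC
  have hN1 : 1 ≤ N := by rw [hN]; exact Nat.le_floor (by push_cast; linarith)
  have hcount := Pool.Agent.TH867.SR.coprime_count N hN1
  set F : Finset (ℕ × ℕ) := Pool.Agent.TH867.SR.cpp N with hF
  have hmemF : ∀ p ∈ F, 0 < p.1 ∧ p.1 ≤ p.2 ∧ p.2 ≤ N ∧ Nat.Coprime p.1 p.2 := by
    intro p hp
    rw [hF, Pool.Agent.TH867.SR.cpp, mem_filter, mem_product, mem_Ioc, mem_Ioc] at hp
    exact ⟨hp.1.1.1, hp.2.1, hp.1.2.2, hp.2.2⟩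
  set G : Finset (Σ _ : ℕ × ℕ, ℕ) :=
    F.sigma (fun p => (range (2 * 2 ^ k)).filter fun j => Odd (p.1 + j * p.2)) with hG
  -- the map
  set φ : (Σ _ : ℕ × ℕ, ℕ) → ℕ × ℕ := fun s =>
    (2 ^ (k + 1) * s.1.2 - (s.1.1 + s.2 * s.1.2), s.1.1 + s.2 * s.1.2) with hφ
  have hlt : ∀ s ∈ G, s.1.1 + s.2 * s.1.2 < 2 ^ (k + 1) * s.1.2 := by
    intro s hs
    rw [hG, mem_sigma, mem_filter, mem_range] at hs
    obtain ⟨h3, h4, h5⟩ := hs
    obtain ⟨b1, b2, b3, b4⟩ := hmemF _ h3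
    have h6 : s.1.1 + s.2 * s.1.2 ≤ 2 ^ (k + 1) * s.1.2 := by
      calc s.1.1 + s.2 * s.1.2 ≤ s.1.2 + s.2 * s.1.2 := by omega
        _ = (s.2 + 1) * s.1.2 := by ring
        _ ≤ 2 ^ (k + 1) * s.1.2 := by
            refine Nat.mul_le_mul_right _ ?_
            rw [pow_succ, mul_comm]
            omega
    refine lt_of_le_of_ne h6 fun h7 => ?_
    rw [h7] at h5
    rw [← Nat.not_even_iff_odd] at h5
    apply h5
    rw [pow_succ, mul_comm (2 ^ k) 2, mul_assoc]
    exact even_two_mul _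
  have hmap : ∀ s ∈ G, φ s ∈ triples A B C := by
    intro s hs
    have h8 := hlt s hs
    rw [hG, mem_sigma, mem_filter, mem_range] at hs
    obtain ⟨h3, h4, h5⟩ := hs
    obtain ⟨b1, b2, b3, b4⟩ := hmemF _ h3
    obtain ⟨y, hy⟩ : ∃ y : ℕ, y = s.1.1 + s.2 * s.1.2 := ⟨_, rfl⟩
    obtain ⟨c, hc⟩ : ∃ c : ℕ, c = 2 ^ (k + 1) * s.1.2 := ⟨_, rfl⟩
    have hφs : φ s = (c - y, y) := by rw [hφ, hy, hc]
    rw [← hy, ← hc] at h8
    rw [← hy] at h5
    have hy0 : 0 < y := by rw [hy]; omega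
    have hsum : c - y + y = c := by omega
    have hcop1 : Nat.Coprime y c := by
      rw [hc]
      refine Nat.Coprime.mul_right ?_ ?_
      · refine Nat.Coprime.pow_right _ ?_
        rw [Nat.coprime_two_right]
        exact h5
      · rw [hy]
        rw [Nat.coprime_add_mul_right_left]
        exact b4
    have hcop : Nat.Coprime (c - y) y := by
      have h9 : Nat.Coprime (c - y + y) y := by rw [hsum]; exact hcop1.symm
      exact (Nat.coprime_add_self_left).1 h9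
    -- sizes
    have hcB : (c : ℝ) ≤ B := by
      rw [hc]
      push_cast
      have : (s.1.2 : ℝ) ≤ C / 2 := le_trans (by exact_mod_cast b3) hNC
      calc (2 : ℝ) ^ (k + 1) * s.1.2 ≤ 2 ^ (k + 1) * C :=
            mul_le_mul_of_nonneg_left (by linarith) (by positivity)
        _ ≤ B := hk1
    have hyc : (y : ℝ) ≤ c := by exact_mod_cast h8.le
    have hac : ((c - y : ℕ) : ℝ) ≤ c := by exact_mod_cast Nat.sub_le c y
    have r1 : (radical (c - y) : ℝ) ≤ ((c - y : ℕ) : ℝ) := by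
      exact_mod_cast radical_le (by omega : 0 < c - y)
    have r2 : (radical y : ℝ) ≤ y := by exact_mod_cast radical_le hy0
    have r3 : (radical c : ℝ) ≤ C := by
      have e1 : radical c ≤ 2 * radical s.1.2 := by
        rw [hc]
        refine (radical_mul_le (by positivity) (by omega)).trans ?_
        refine Nat.mul_le_mul_right _ ?_
        unfold radical
        rw [Nat.primeFactors_prime_pow (by omega) Nat.prime_two]
        simp
      have e2 : radical s.1.2 ≤ N := (radical_le (by omega)).trans b3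
      have e3 : (radical c : ℝ) ≤ 2 * (N : ℝ) := by exact_mod_cast e1.trans (by omega)
      linarith
    rw [hφs]
    refine ⟨by simp only; omega, hy0, hcop, ?_, ?_, ?_⟩
    · simp only; linarith
    · simp only; linarith
    · simp only
      rw [hsum]
      exact r3
  have hinj : Set.InjOn φ (G : Set (Σ _ : ℕ × ℕ, ℕ)) := by
    intro s hs s' hs' he
    rw [mem_coe] at hs hs'
    have l1 := hlt s hs
    have l2 := hlt s' hs'
    rw [hG, mem_sigma, mem_filter, mem_range] at hs hs'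
    obtain ⟨b1, b2, b3, b4⟩ := hmemF _ hs.1
    obtain ⟨d1, d2, d3, d4⟩ := hmemF _ hs'.1
    simp only [hφ, Prod.mk.injEq] at he
    obtain ⟨e1, e2⟩ := he
    have e3 : 2 ^ (k + 1) * s.1.2 = 2 ^ (k + 1) * s'.1.2 := by omega
    have e4 : s.1.2 = s'.1.2 := Nat.eq_of_mul_eq_mul_left (by positivity) e3
    -- division with remainder in `(0, c]`
    have e5 : s.1.1 + s.2 * s.1.2 = s'.1.1 + s'.2 * s.1.2 := by rw [e2, e4]
    have e6 : s.2 = s'.2 := by
      rcases lt_trichotomy s.2 s'.2 with h | h | h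
      · exfalso
        have : (s.2 + 1) * s.1.2 ≤ s'.2 * s.1.2 := Nat.mul_le_mul_right _ h
        have e7 : (s.2 + 1) * s.1.2 = s.2 * s.1.2 + s.1.2 := by ring
        omega
      · exact h
      · exfalso
        have : (s'.2 + 1) * s.1.2 ≤ s.2 * s.1.2 := Nat.mul_le_mul_right _ h
        have e7 : (s'.2 + 1) * s.1.2 = s'.2 * s.1.2 + s.1.2 := by ring
        omega
    have e7 : s.1.1 = s'.1.1 := by
      rw [e6] at e5
      omega
    obtain ⟨⟨x, y⟩, j⟩ := s
    obtain ⟨⟨x', y'⟩, j'⟩ := s'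
    simp only at e4 e6 e7
    subst e4 e6 e7
    rfl
  have hGcard : F.card * 2 ^ k ≤ G.card := by
    rw [hG, card_sigma]
    calc F.card * 2 ^ k = ∑ p ∈ F, 2 ^ k := by rw [sum_const, smul_eq_mul]
      _ ≤ _ := sum_le_sum fun p hp => odd_card (hmemF p hp).2.2.2
  have hle : G.card ≤ (triples A B C).ncard := by
    rw [← Set.ncard_coe_finset]
    exact Set.ncard_le_ncard_of_injOn φ (fun s hs => hmap s (mem_coe.1 hs)) hinj hfin
  have h3 : (F.card : ℝ) * 2 ^ k ≤ ((triples A B C).ncard : ℝ) := by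
    exact_mod_cast hGcard.trans hle
  have h4 : (C / 4) ^ 2 / 8 ≤ (F.card : ℝ) := by
    refine le_trans ?_ hcount
    have : (C / 4) ^ 2 ≤ (N : ℝ) ^ 2 := pow_le_pow_left₀ (by linarith) hN4 2
    linarith
  have h5 : B / (4 * C) ≤ (2 : ℝ) ^ k := by
    rw [div_le_iff₀ (by linarith)]
    have : (2 : ℝ) ^ (k + 2) * C = 2 ^ k * (4 * C) := by rw [pow_add]; ring
    linarith
  calc B * C / 512 = (C / 4) ^ 2 / 8 * (B / (4 * C)) := by
        field_simp
        norm_num
    _ ≤ (F.card : ℝ) * 2 ^ k := mul_le_mul h4 h5 (by positivity) (Nat.cast_nonneg _)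
    _ ≤ _ := h3

/-- the two members interchanged -/
lemma ncard_comm (A B C : ℝ) : (triples A B C).ncard = (triples B A C).ncard := by
  have h : triples A B C = Prod.swap '' triples B A C := by
    ext ⟨a, b⟩
    constructor
    · rintro ⟨h1, h2, h3, h4, h5, h6⟩
      refine ⟨(b, a), ⟨h2, h1, h3.symm, h5, h4, ?_⟩, rfl⟩
      simp only at h6 ⊢
      rw [add_comm]
      exact h6
    · rintro ⟨⟨x, y⟩, ⟨h1, h2, h3, h4, h5, h6⟩, h⟩
      simp only [Prod.swap_prod_mk, Prod.mk.injEq] at h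
      obtain ⟨rfl, rfl⟩ := h
      refine ⟨h2, h1, h3.symm, h5, h4, ?_⟩
      simp only at h6 ⊢
      rw [add_comm]
      exact h6
  rw [h, Set.ncard_image_of_injective _ Prod.swap_injective]

lemma finite_comm {A B C : ℝ} (h : (triples A B C).Finite) : (triples B A C).Finite := by
  refine (h.image Prod.swap).subset ?_
  rintro ⟨a, b⟩ ⟨h1, h2, h3, h4, h5, h6⟩
  refine ⟨(b, a), ⟨h2, h1, h3.symm, h5, h4, ?_⟩, rfl⟩
  simp only at h6 ⊢
  rw [add_comm]
  exact h6

/-- **The lower bound.** -/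
lemma lower {A B C : ℝ} (hA : 2 ≤ A) (hB : 2 ≤ B) (hC : 2 ≤ C) (hfin : (triples A B C).Finite) :
    least A B C / 512 ≤ ((triples A B C).ncard : ℝ) := by
  have l1 : least A B C ≤ A * B := min_le_left _ _
  have l2 : least A B C ≤ A * C := (min_le_right _ _).trans (min_le_left _ _)
  have l3 : least A B C ≤ B * C := (min_le_right _ _).trans (min_le_right _ _)
  have hn : (0 : ℝ) ≤ A * B := by positivity
  -- the case `B ≤ A`
  have key : ∀ A B : ℝ, 2 ≤ A → 2 ≤ B → B ≤ A → (triples A B C).Finite → ∀ l : ℝ,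
      l ≤ A * B → l ≤ A * C → l ≤ B * C → l / 512 ≤ ((triples A B C).ncard : ℝ) := by
    intro A B hA hB hBA hfin l l1 l2 l3
    rcases le_total A C with h | h
    · have := lower_rect hA hB le_rfl le_rfl h (hBA.trans h) hfin
      have hp : 0 ≤ A * B := by positivity
      linarith
    · rcases le_total B C with h' | h'
      · have := lower_rect (A := A) (B := B) (C := C) hC hB h le_rfl le_rfl h' hfin
        have hp : 0 ≤ C * B := by positivity
        linarith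
      · rcases le_total (2 * C) B with h'' | h''
        · have := lower_sum hC h'' hBA hfin
          linarith
        · have := lower_rect (A := A) (B := B) (C := C) hC hC h h' le_rfl le_rfl hfin
          have h5 : B * C ≤ 2 * (C * C) := by nlinarith
          have hp : 0 ≤ C * C := by positivity
          linarith
  rcases le_total B A with h | h
  · exact key A B hA hB h hfin _ l1 l2 l3
  · rw [ncard_comm]
    exact key B A hB hA h (finite_comm hfin) _ (by linarith) l3 l2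

/-- the triples with `c < rad ^ M` -/
lemma good_count (M : ℕ) (ε : ℝ) (hε : 0 < ε) : ∃ K : ℝ, 0 < K ∧ ∀ A B C : ℝ, 1 ≤ A → 1 ≤ B →
    1 ≤ C → ({t | t ∈ triples A B C ∧ t.1 + t.2 < radical (t.1 * t.2 * (t.1 + t.2)) ^ M} :
      Set (ℕ × ℕ)).Finite ∧
    (({t | t ∈ triples A B C ∧ t.1 + t.2 < radical (t.1 * t.2 * (t.1 + t.2)) ^ M} :
      Set (ℕ × ℕ)).ncard : ℝ) ≤ K * (A * B * C) ^ ε * least A B C := by
  classical
  obtain ⟨τ, hτ⟩ : ∃ τ : ℝ, τ = ε / (2 * (M + 1)) := ⟨_, rfl⟩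
  have hτ0 : 0 < τ := by rw [hτ]; positivity
  have hM0 : (0 : ℝ) ≤ M := Nat.cast_nonneg _
  have hτM : M * τ * 2 ≤ ε := by
    rw [hτ]
    have : (M : ℝ) * (ε / (2 * (M + 1))) * 2 = ε * (M / (M + 1)) := by field_simp
    rw [this]
    have : (M : ℝ) / (M + 1) ≤ 1 := by rw [div_le_one (by linarith)]; linarith
    nlinarith
  obtain ⟨K, hK, hcount⟩ := radical_count τ hτ0
  refine ⟨K ^ 2, by positivity, fun A B C hA hB hC => ?_⟩
  obtain ⟨X, hX⟩ : ∃ X : ℝ, X = A * B * C := ⟨_, rfl⟩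
  have hAB : 1 ≤ A * B := by nlinarith
  have hX1 : 1 ≤ X := by rw [hX]; nlinarith
  have hX0 : 0 < X := by linarith
  obtain ⟨Z, hZ⟩ : ∃ Z : ℝ, Z = X ^ M := ⟨_, rfl⟩
  have hZ1 : 1 ≤ Z := by rw [hZ]; exact one_le_pow₀ hX1
  set S : Set (ℕ × ℕ) :=
    {t | t ∈ triples A B C ∧ t.1 + t.2 < radical (t.1 * t.2 * (t.1 + t.2)) ^ M} with hS
  have hmem : ∀ t ∈ S, 0 < t.1 ∧ 0 < t.2 ∧ (((t.1 + t.2 : ℕ)) : ℝ) ≤ Z ∧ (radical t.1 : ℝ) ≤ A ∧
      (radical t.2 : ℝ) ≤ B ∧ (radical (t.1 + t.2) : ℝ) ≤ C := by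
    rintro t ⟨⟨a1, a2, a3, a4, a5, a6⟩, a7⟩
    refine ⟨a1, a2, ?_, a4, a5, a6⟩
    rw [radical3 a3] at a7
    have h1 : (((t.1 + t.2 : ℕ)) : ℝ) ≤
        ((radical t.1 : ℝ) * radical t.2 * radical (t.1 + t.2)) ^ M := by exact_mod_cast a7.le
    refine h1.trans ?_
    rw [hZ, hX]
    refine pow_le_pow_left₀ (by positivity) ?_ M
    refine mul_le_mul (mul_le_mul a4 a5 (Nat.cast_nonneg _) (by linarith)) a6 (Nat.cast_nonneg _)
      (by positivity)
  have hfin : S.Finite := by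
    refine Set.Finite.subset (Finset.finite_toSet (range (⌊Z⌋₊ + 1) ×ˢ range (⌊Z⌋₊ + 1))) ?_
    intro t ht
    obtain ⟨a1, a2, a3, -⟩ := hmem t ht
    have : t.1 + t.2 ≤ ⌊Z⌋₊ := Nat.le_floor a3
    rw [mem_coe, mem_product, mem_range, mem_range]
    omega
  refine ⟨hfin, ?_⟩
  rw [Set.ncard_eq_toFinset_card _ hfin]
  set F := hfin.toFinset with hF
  have hmemF : ∀ t ∈ F, 0 < t.1 ∧ 0 < t.2 ∧ (((t.1 + t.2 : ℕ)) : ℝ) ≤ Z ∧ (radical t.1 : ℝ) ≤ A ∧
      (radical t.2 : ℝ) ≤ B ∧ (radical (t.1 + t.2) : ℝ) ≤ C := by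
    intro t ht
    exact hmem t ((Set.Finite.mem_toFinset hfin).1 ht)
  -- two coordinates determine the triple
  have two : ∀ (f g : ℕ × ℕ → ℕ) (R₁ R₂ : ℝ), 1 ≤ R₁ → 1 ≤ R₂ →
      (∀ t ∈ F, (0 < f t ∧ (f t : ℝ) ≤ Z ∧ (radical (f t) : ℝ) ≤ R₁) ∧
        (0 < g t ∧ (g t : ℝ) ≤ Z ∧ (radical (g t) : ℝ) ≤ R₂)) →
      (∀ t ∈ F, ∀ t' ∈ F, f t = f t' → g t = g t' → t = t') →
      (F.card : ℝ) ≤ K ^ 2 * X ^ ε * (R₁ * R₂) := by
    intro f g R₁ R₂ h1 h2 h3 h4
    have e1 : F.card ≤ ((F.image f) ×ˢ (F.image g)).card := by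
      refine card_le_card_of_injOn (fun t => (f t, g t)) ?_ ?_
      · intro t ht
        rw [mem_coe, mem_product]
        exact ⟨mem_image_of_mem f ht, mem_image_of_mem g ht⟩
      · intro t ht t' ht' h
        simp only [Prod.mk.injEq] at h
        exact h4 t ht t' ht' h.1 h.2
    have e2 := hcount Z R₁ hZ1 h1 (F.image f) (by
      intro n hn
      obtain ⟨t, ht, rfl⟩ := mem_image.1 hn
      exact (h3 t ht).1)
    have e3 := hcount Z R₂ hZ1 h2 (F.image g) (by
      intro n hn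
      obtain ⟨t, ht, rfl⟩ := mem_image.1 hn
      exact (h3 t ht).2)
    rw [card_product] at e1
    have e4 : (F.card : ℝ) ≤ ((F.image f).card : ℝ) * ((F.image g).card : ℝ) := by
      exact_mod_cast e1
    refine e4.trans ((mul_le_mul e2 e3 (Nat.cast_nonneg _) (by positivity)).trans ?_)
    have e5 : Z ^ τ * Z ^ τ ≤ X ^ ε := by
      rw [hZ, ← Real.rpow_natCast, ← Real.rpow_mul hX0.le, ← Real.rpow_add hX0]
      exact Real.rpow_le_rpow_of_exponent_le hX1 (by linarith)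
    calc K * Z ^ τ * R₁ * (K * Z ^ τ * R₂) = K ^ 2 * (Z ^ τ * Z ^ τ) * (R₁ * R₂) := by ring
      _ ≤ K ^ 2 * X ^ ε * (R₁ * R₂) := by
          refine mul_le_mul_of_nonneg_right (mul_le_mul_of_nonneg_left e5 (by positivity)) ?_
          positivity
  have hf : ∀ t ∈ F, (0 < t.1 ∧ (t.1 : ℝ) ≤ Z ∧ (radical t.1 : ℝ) ≤ A) ∧
      (0 < t.2 ∧ (t.2 : ℝ) ≤ Z ∧ (radical t.2 : ℝ) ≤ B) ∧
      (0 < t.1 + t.2 ∧ ((t.1 + t.2 : ℕ) : ℝ) ≤ Z ∧ (radical (t.1 + t.2) : ℝ) ≤ C) := by
    intro t ht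
    obtain ⟨a1, a2, a3, a4, a5, a6⟩ := hmemF t ht
    have b1 : (0 : ℝ) ≤ t.1 := Nat.cast_nonneg _
    have b2 : (0 : ℝ) ≤ t.2 := Nat.cast_nonneg _
    have a3' := a3
    push_cast at a3'
    exact ⟨⟨a1, by linarith, a4⟩, ⟨a2, by linarith, a5⟩, ⟨by omega, a3, a6⟩⟩
  rw [← hX]
  have k1 := two (fun t => t.1) (fun t => t.2) A B hA hB (fun t ht => ⟨(hf t ht).1, (hf t ht).2.1⟩)
    (fun t _ t' _ h h' => Prod.ext h h')
  have k2 := two (fun t => t.1) (fun t => t.1 + t.2) A C hA hC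
    (fun t ht => ⟨(hf t ht).1, (hf t ht).2.2⟩)
    (fun t _ t' _ h h' => Prod.ext h (by omega))
  have k3 := two (fun t => t.2) (fun t => t.1 + t.2) B C hB hC
    (fun t ht => ⟨(hf t ht).2.1, (hf t ht).2.2⟩)
    (fun t _ t' _ h h' => Prod.ext (by omega) h)
  have hpos : 0 < K ^ 2 * X ^ ε := by positivity
  rw [← div_le_iff₀' hpos] at k1 k2 k3 ⊢
  exact le_min k1 (le_min k2 k3)

/-- the violating triples -/
lemma bad_count (ε : ℝ) (hε : 0 < ε) : ∃ (M : ℕ) (K : ℝ), 0 < K ∧ ∀ A B C : ℝ, 1 ≤ A → 1 ≤ B →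
    1 ≤ C → (violating M A B C).Finite ∧
    ((violating M A B C).ncard : ℝ) ≤ K * (A * B * C) ^ ε * √(least A B C) := by
  obtain ⟨M, K, hK, h⟩ := SquareRootAllHeights.result ε hε
  refine ⟨M, K, hK, fun A B C hA hB hC => ?_⟩
  obtain ⟨X, hX⟩ : ∃ X : ℝ, X = A * B * C := ⟨_, rfl⟩
  have hAB : 1 ≤ A * B := by nlinarith
  have hX1 : 1 ≤ X := by rw [hX]; nlinarith
  have hX0 : 0 < X := by linarith
  obtain ⟨hfin, -, -, hcard⟩ := h ⌊X⌋₊ (Nat.le_floor (by simpa using hX1))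
  have hsub : violating M A B C ⊆ SquareRootAllHeights.exceptions M ⌊X⌋₊ := by
    rintro t ⟨⟨a1, a2, a3, a4, a5, a6⟩, a7⟩
    refine ⟨⟨a1, a2, a3⟩, Nat.le_floor ?_, a7⟩
    have e : SquareRootAllHeights.rad3 t = radical (t.1 * t.2 * (t.1 + t.2)) := rfl
    rw [e, radical3 a3, hX]
    push_cast
    refine mul_le_mul (mul_le_mul a4 a5 (Nat.cast_nonneg _) (by linarith)) a6 (Nat.cast_nonneg _)
      (by positivity)
  refine ⟨hfin.subset hsub, ?_⟩
  have two : ∀ (i j : Fin 3) (R₁ R₂ : ℝ), i ≠ j → 1 ≤ R₁ → 1 ≤ R₂ →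
      (∀ t ∈ violating M A B C, (radical (SquareRootAllHeights.member t i) : ℝ) ≤ R₁ ∧
        (radical (SquareRootAllHeights.member t j) : ℝ) ≤ R₂) →
      ((violating M A B C).ncard : ℝ) ≤ K * X ^ ε * √(R₁ * R₂) := by
    intro i j R₁ R₂ hij h1 h2 h3
    have h4 := hcard ⌊R₁⌋₊ ⌊R₂⌋₊ (Nat.le_floor (by simpa using h1)) (Nat.le_floor (by simpa using h2))
    have h5 : (violating M A B C).ncard ≤ {q | q ∈ SquareRootAllHeights.exceptions M ⌊X⌋₊ ∧
        ∃ i j, i ≠ j ∧ SquareRootAllHeights.radical (SquareRootAllHeights.member q i) ≤ ⌊R₁⌋₊ ∧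
          SquareRootAllHeights.radical (SquareRootAllHeights.member q j) ≤ ⌊R₂⌋₊}.ncard := by
      refine Set.ncard_le_ncard ?_ (hfin.subset fun q hq => hq.1)
      intro t ht
      exact ⟨hsub ht, i, j, hij, Nat.le_floor (h3 t ht).1, Nat.le_floor (h3 t ht).2⟩
    have h6 : ((violating M A B C).ncard : ℝ) ≤ _ := (Nat.cast_le.2 h5).trans h4
    refine h6.trans ?_
    have h7 : ((⌊X⌋₊ : ℕ) : ℝ) ^ ε ≤ X ^ ε :=
      Real.rpow_le_rpow (Nat.cast_nonneg _) (Nat.floor_le hX0.le) hε.le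
    have h8 : √(((⌊R₁⌋₊ : ℕ) : ℝ) * ((⌊R₂⌋₊ : ℕ) : ℝ)) ≤ √(R₁ * R₂) := by
      refine Real.sqrt_le_sqrt (mul_le_mul (Nat.floor_le (by linarith)) (Nat.floor_le (by linarith))
        (Nat.cast_nonneg _) (by linarith))
    exact mul_le_mul (mul_le_mul_of_nonneg_left h7 hK.le) h8 (Real.sqrt_nonneg _) (by positivity)
  have k1 := two 0 1 A B (by decide) hA hB (fun t ht => ⟨ht.1.2.2.2.1, ht.1.2.2.2.2.1⟩)
  have k2 := two 0 2 A C (by decide) hA hC (fun t ht => ⟨ht.1.2.2.2.1, ht.1.2.2.2.2.2⟩)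
  have k3 := two 1 2 B C (by decide) hB hC (fun t ht => ⟨ht.1.2.2.2.2.1, ht.1.2.2.2.2.2⟩)
  rw [← hX]
  unfold least
  rcases min_choice (A * B) (min (A * C) (B * C)) with h' | h' <;> rw [h']
  · exact k1
  · rcases min_choice (A * C) (B * C) with h'' | h'' <;> rw [h'']
    · exact k2
    · exact k3

/-- **The abc triples with members of bounded radicals, at all heights.** For every `ε > 0` there are
an exponent `M` and a constant `K` such that for all `A, B, C ≥ 2` the number of the abc triples, of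
any height, with `rad a ≤ A`, `rad b ≤ B`, `rad c ≤ C` is finite and lies between `m / 512` and
`K (A B C) ^ ε m`, where `m = min (A B, A C, B C)`, and at most `K (A B C) ^ ε √m` of them violate
Oesterlé's inequality `c < rad (abc) ^ M`. -/
theorem result : ∀ ε : ℝ, 0 < ε → ∃ (M : ℕ) (K : ℝ), 0 < K ∧ ∀ A B C : ℝ, 2 ≤ A → 2 ≤ B → 2 ≤ C →
    (triples A B C).Finite ∧
    least A B C / 512 ≤ ((triples A B C).ncard : ℝ) ∧
    ((triples A B C).ncard : ℝ) ≤ K * (A * B * C) ^ ε * least A B C ∧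
    ((violating M A B C).ncard : ℝ) ≤ K * (A * B * C) ^ ε * √(least A B C) := by
  intro ε hε
  obtain ⟨M, K₁, hK₁, hbad⟩ := bad_count ε hε
  obtain ⟨K₂, hK₂, hgood⟩ := good_count M ε hε
  refine ⟨M, K₁ + K₂, by positivity, fun A B C hA hB hC => ?_⟩
  obtain ⟨hf1, hb⟩ := hbad A B C (by linarith) (by linarith) (by linarith)
  obtain ⟨hf2, hg⟩ := hgood A B C (by linarith) (by linarith) (by linarith)
  set G : Set (ℕ × ℕ) :=
    {t | t ∈ triples A B C ∧ t.1 + t.2 < radical (t.1 * t.2 * (t.1 + t.2)) ^ M} with hG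
  have hsub : triples A B C ⊆ violating M A B C ∪ G := by
    intro t ht
    rcases lt_or_ge (t.1 + t.2) (radical (t.1 * t.2 * (t.1 + t.2)) ^ M) with h | h
    · exact Or.inr ⟨ht, h⟩
    · exact Or.inl ⟨ht, h⟩
  have hfin : (triples A B C).Finite := (hf1.union hf2).subset hsub
  have hm1 : 1 ≤ least A B C := by
    unfold least
    refine le_min ?_ (le_min ?_ ?_) <;> nlinarith
  have hX : 0 ≤ (A * B * C) ^ ε := by positivity
  have hsq : √(least A B C) ≤ least A B C := by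
    rw [Real.sqrt_le_left (by linarith)]
    nlinarith
  refine ⟨hfin, lower hA hB hC hfin, ?_, ?_⟩
  · have h1 := Set.ncard_le_ncard hsub (hf1.union hf2)
    have h2 := Set.ncard_union_le (violating M A B C) G
    have h3 : ((triples A B C).ncard : ℝ) ≤ ((violating M A B C).ncard : ℝ) + (G.ncard : ℝ) := by
      exact_mod_cast h1.trans h2
    have h4 : K₁ * (A * B * C) ^ ε * √(least A B C) ≤ K₁ * (A * B * C) ^ ε * least A B C :=
      mul_le_mul_of_nonneg_left hsq (by positivity)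
    have h5 : (K₁ + K₂) * (A * B * C) ^ ε * least A B C =
        K₁ * (A * B * C) ^ ε * least A B C + K₂ * (A * B * C) ^ ε * least A B C := by ring
    linarith
  · refine hb.trans ?_
    have : 0 ≤ (A * B * C) ^ ε * √(least A B C) := by positivity
    have h5 : (K₁ + K₂) * (A * B * C) ^ ε * √(least A B C) =
        K₁ * (A * B * C) ^ ε * √(least A B C) + K₂ * ((A * B * C) ^ ε * √(least A B C)) := by ring
    rw [h5]
    nlinarith

end Pool.Agent.Results.MP_2ec8a3_nt.RadicalBoxes
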