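import Pool.Agent.H17.DV.Proof

/-!
# Oesterlé's inequality for all the triples through a typical integer

For every `δ > 0` there is an exponent `M` such that for all the positive integers `n ≤ N` with at
most `K N ^ (1 - ν)` exceptions EVERY abc triple, of any height, such that all primes of `n` divide
`abc` and `rad (abc) ≤ n ^ (3 - δ)` satisfies `c < rad (abc) ^ M`.

Proof: by the square root bound at all heights (`SquareRootAllHeights`) there are at most
`C X ^ (1/3 + ε)` violators of radical at most `X = N ^ (3 - δ)`, and the primes of each of them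
compose at most `N ^ ε` integers up to `N`.
-/

set_option autoImplicit false

namespace Pool.Agent.Results.MP_2ec8a3_nt.TriplesThroughTypicalIntegers

open Pool.Agent.H17.DV

/-- **Oesterlé's inequality for all the triples through a typical integer.** -/
theorem result : ∀ δ : ℝ, 0 < δ → ∃ (M : ℕ) (ν K : ℝ), 0 < ν ∧ 0 < K ∧ ∀ N : ℕ, 1 ≤ N →
    ({n | n ∈ Bad δ M ∧ n ≤ N}.ncard : ℝ) ≤ K * (N : ℝ) ^ (1 - ν) :=
  main

end Pool.Agent.Results.MP_2ec8a3_nt.TriplesThroughTypicalIntegers
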